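import Pool.Agent.Lib.TG15.Defs
import Pool.Agent.Lib.TG.Basic
import Pool.Agent.Lib.TG_h62.Deg

/-!
# TANK G, section B: the choice of the linear system at a FIXED level `T`

`G1Fin`: like `TG15.G1Stmt`, but with one polynomial `Φ` per point and the level `T` fixed in
advance, together with the asymptotic bound for the multiplicities.
-/

set_option autoImplicit false

namespace Pool.Agent.TGBC

open Filter Module
open Pool.Agent.TG (Ov ZDim IsMin ch IsModel)
open Pool.Agent.TG15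

universe u

section Choice

variable {k K : Type*} [Field k] [Field K] [Algebra k K]

/-- The subspace of minimal dimension (helper74's `exists_choice` with a general constant). -/
theorem exists_choiceQ (S₀ : Submodule k K) [FiniteDimensional k S₀] (n Q : ℕ)
    (F : Submodule k K → ℕ → ℕ)
    (hA : ∀ᶠ t in atTop, F S₀ t < Q * finrank k S₀ * t ^ n) :
    ∃ W : Submodule k K, W ≤ S₀ ∧ W ≠ ⊥ ∧ ∀ W' : Submodule k K, W' ≤ W →
      finrank k W' + 1 = finrank k W →
      ∃ᶠ t in atTop, F W t < F W' t + Q * t ^ n := by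
  classical
  set P : Submodule k K → Prop := fun W => W ≤ S₀ ∧ ∃ᶠ t in atTop,
    F W t + Q * (finrank k S₀ - finrank k W) * t ^ n ≤ F S₀ t with hP
  have hP0 : P S₀ := ⟨le_rfl, (Eventually.of_forall fun t => by
    rw [Nat.sub_self, mul_zero, zero_mul, add_zero]).frequently⟩
  have hex : ∃ d : ℕ, ∃ W : Submodule k K, P W ∧ finrank k W = d := ⟨_, S₀, hP0, rfl⟩
  obtain ⟨W, hW, hWd⟩ := Nat.find_spec hex
  have hmin : ∀ W' : Submodule k K, P W' → finrank k W ≤ finrank k W' := by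
    intro W' hW'
    rw [hWd]
    exact Nat.find_min' hex ⟨W', hW', rfl⟩
  refine ⟨W, hW.1, ?_, ?_⟩
  · rintro rfl
    obtain ⟨t, h1, h2⟩ := (hW.2.and_eventually hA).exists
    rw [finrank_bot, Nat.sub_zero] at h1
    omega
  · intro W' hle hrk
    have hnot : ¬ P W' := by
      intro h
      have := hmin W' h
      omega
    have hnot2 : ∀ᶠ t in atTop, F S₀ t <
        F W' t + Q * (finrank k S₀ - finrank k W') * t ^ n := by
      have h1 : ¬ ∃ᶠ t in atTop,
          F W' t + Q * (finrank k S₀ - finrank k W') * t ^ n ≤ F S₀ t :=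
        fun h => hnot ⟨hle.trans hW.1, h⟩
      rw [not_frequently] at h1
      exact h1.mono fun t ht => not_le.1 ht
    refine (hW.2.and_eventually hnot2).mono fun t ht => ?_
    obtain ⟨h1, h2⟩ := ht
    have hd : finrank k W ≤ finrank k S₀ := Submodule.finrank_mono hW.1
    have h3 : finrank k S₀ - finrank k W' =
        (finrank k S₀ - finrank k W) + 1 := by omega
    rw [h3] at h2
    have h4 : Q * ((finrank k S₀ - finrank k W) + 1) * t ^ n =
        Q * (finrank k S₀ - finrank k W) * t ^ n + Q * t ^ n := by ring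
    rw [h4] at h2
    omega

/-- Numerics: `(n + 6) (1 + ε) (1 + 1/m) ^ n < n + 7` for small `ε` and large `m`. -/
theorem exists_eps (n : ℕ) : ∃ ε : ℝ, 0 < ε ∧ ∀ᶠ m : ℕ in atTop,
    ((n : ℝ) + 6) * ((1 + ε) * (1 + 1 / (m : ℝ)) ^ n) < (n : ℝ) + 7 := by
  refine ⟨1 / (2 * ((n : ℝ) + 6)), by positivity, ?_⟩
  have h1 : Tendsto (fun m : ℕ => ((n : ℝ) + 6) * ((1 + 1 / (2 * ((n : ℝ) + 6))) *
      (1 + 1 / (m : ℝ)) ^ n)) atTop
      (nhds (((n : ℝ) + 6) * ((1 + 1 / (2 * ((n : ℝ) + 6))) * (1 + 0) ^ n))) :=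
    (((tendsto_const_nhds.add tendsto_one_div_atTop_nhds_zero_nat).pow n).const_mul _).const_mul _
  refine h1.eventually (gt_mem_nhds ?_)
  rw [add_zero, one_pow, mul_one, mul_add, mul_one]
  have h2 : ((n : ℝ) + 6) * (1 / (2 * ((n : ℝ) + 6))) = 1 / 2 := by
    field_simp
  rw [h2]
  linarith

end Choice

section Main

variable {k K : Type u} [Field k] [Field K] [Algebra k K]

/-- In the presence of a minimal element: `Gt` is a strict inequality with it. -/
theorem gt_iff {V : ValuationSubring K} {F : Submodule k K} {f : K} (hf : IsMin V F f) {x : K} :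
    Gt V x F ↔ x = 0 ∨ V.valuation x < V.valuation f := by
  constructor
  · rintro (h | ⟨y, hy, hxy⟩)
    · exact Or.inl h
    · refine Or.inr (hxy.trans_le ?_)
      have h1 := (V.valuation_le_one_iff _).2 (hf.div y hy)
      rw [map_div₀] at h1
      have h0 : V.valuation f ≠ 0 := (Valuation.ne_zero_iff _).2 hf.ne
      exact (div_le_one₀ (zero_lt_iff.2 h0)).1 h1
  · rintro (h | h)
    · exact Or.inl h
    · exact Or.inr ⟨f, hf.mem, h⟩

/-- `hx V W` is a hyperplane. -/
theorem finrank_hx {V : ValuationSubring K} (hV : ZDim k V) {W : Submodule k K}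
    (hW : W.FG) {f : K} (hf : IsMin V W f) : finrank k (hx V W) + 1 = finrank k W := by
  classical
  have hfd : FiniteDimensional k W := Module.Finite.iff_fg.2 hW
  have hle : hx V W ≤ W := fun x hx => hx.1
  -- every element of `W` is a multiple of `f` modulo `hx`
  have h1 : W = hx V W ⊔ (k ∙ f) := by
    refine le_antisymm ?_ (sup_le hle ?_)
    · intro w hw
      obtain ⟨c, hc⟩ := hV.res (w / f) (hf.div w hw)
      have h2 : w - c • f ∈ hx V W := by
        refine ⟨sub_mem hw (Submodule.smul_mem _ c hf.mem), (gt_iff hf).2 ?_⟩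
        right
        have h3 : w - c • f = (w / f - algebraMap k K c) * f := by
          rw [sub_mul, div_mul_cancel₀ _ hf.ne, Algebra.smul_def]
        rw [h3, map_mul]
        have h0 : V.valuation f ≠ 0 := (Valuation.ne_zero_iff _).2 hf.ne
        calc V.valuation (w / f - algebraMap k K c) * V.valuation f
            < 1 * V.valuation f := mul_lt_mul_of_pos_right hc (zero_lt_iff.2 h0)
          _ = V.valuation f := one_mul _
      have h4 : w = (w - c • f) + c • f := by ring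
      rw [h4]
      exact add_mem (Submodule.mem_sup_left h2)
        (Submodule.mem_sup_right (Submodule.smul_mem _ c (Submodule.mem_span_singleton_self f)))
    · rw [Submodule.span_singleton_le_iff_mem]
      exact hf.mem
  have h2 : hx V W ⊓ (k ∙ f) = ⊥ := by
    rw [Submodule.eq_bot_iff]
    rintro x ⟨hx1, hx2⟩
    obtain ⟨c, rfl⟩ := Submodule.mem_span_singleton.1 hx2
    by_contra hne
    have hc : c ≠ 0 := by
      rintro rfl
      exact hne (zero_smul _ _)
    rcases (gt_iff hf).1 hx1.2 with h | h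
    · exact hne h
    · have h3 : f = c⁻¹ • (c • f) := by rw [smul_smul, inv_mul_cancel₀ hc, one_smul]
      have h4 : V.valuation (algebraMap k K c) = 1 := by
        have h5 : algebraMap k K c ≠ 0 := (map_ne_zero_iff _ (algebraMap k K).injective).2 hc
        refine le_antisymm ((V.valuation_le_one_iff _).2 (hV.ov c)) ?_
        have h6 := (V.valuation_le_one_iff _).2 (hV.ov c⁻¹)
        rw [map_inv₀, map_inv₀] at h6
        have h7 : V.valuation (algebraMap k K c) ≠ 0 := (Valuation.ne_zero_iff _).2 h5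
        exact (inv_le_one₀ (zero_lt_iff.2 h7)).1 h6
      rw [Algebra.smul_def, map_mul, h4, one_mul] at h
      exact lt_irrefl _ h
  have hfd2 : FiniteDimensional k (hx V W) := Submodule.finiteDimensional_of_le hle
  have h3 := Submodule.finrank_sup_add_finrank_inf_eq (hx V W) (k ∙ f)
  rw [h2, finrank_bot, add_zero, ← h1, finrank_span_singleton hf.ne] at h3
  exact h3.symm

/-- The level `T` version of `G1Stmt`. -/
def G1Fin (k K : Type u) [Field k] [Field K] [Algebra k K] (n : ℕ) : Prop :=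
  Infinite k → Algebra.trdeg k K = n →
  ∀ (q : K [⋀^Fin (n + 1)]→ₗ[k] K) (L : Submodule k K), L.FG → 1 ∈ L →
    (∀ w : K, w ≠ 0 → ∃ g : Fin (n + 1) → K, (∀ j, g j ∈ (k ∙ w) * L) ∧ q g ≠ 0) → ∀ c' : ℕ,
    (∀ (M : ℕ) (g : Fin (n + 1) → K), (∀ j, g j ∈ L ^ M) → q g ∈ L ^ ((n + 1) * M + c')) →
    ∀ (c_ : ℕ) (τ : K), τ ≠ 0 → τ ∈ L ^ c_ → ∀ T : ℕ, 1 ≤ T → ∀ m₀ : ℕ,
    ∃ m ≥ m₀, ∃ W ≤ L ^ m, W ≠ ⊥ ∧
    ∀ V : ValuationSubring K, ZDim k V → ∀ f₀ : K, IsMin V (W * L) f₀ →
      (∃ᶠ t in Filter.atTop,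
        finrank k (ch (W * L) f₀ ⧸ mx (W * L) f₀ (hx V (W * L)) ^ t) < (n + 7) * t ^ n) ∧
      ∀ (h : ℕ) (e : Fin h → K), Submodule.span k (Set.range e) = hx V (W * L) →
      ∃ Φ : MvPolynomial (Fin (n + 1) × Fin h) k, Φ ≠ 0 ∧
        ∀ c, MvPolynomial.eval c Φ ≠ 0 → q (tup f₀ e c) ≠ 0 ∧
          loc L W (m + 1) (c_ + m) τ f₀ (q (tup f₀ e c)) V T < (n + 7) * T ^ n

theorem g1fin {n : ℕ} (hD : LemD k K) (hStep : StepStmt k K n) (hStart : StartStmt k K n) :
    G1Fin k K n := by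
  intro hinf htr q L hL h1L hw c' hq c_ τ hτ hτL T hT m₀
  have hfdL : FiniteDimensional k L := Module.Finite.iff_fg.2 hL
  obtain ⟨ε, hε, hεm⟩ := exists_eps n
  obtain ⟨m₁, hm₁⟩ := eventually_atTop.1 hεm
  obtain ⟨m, hm, hm1, hgood⟩ := TGh62.exists_good_exp (n := n) L h1L htr.le hε
    (max m₀ (max m₁ (max c_ c')))
  have hm₀ : m₀ ≤ m := le_trans (le_max_left _ _) hm
  have hmm₁ : m₁ ≤ m := le_trans (le_max_left _ _) (le_trans (le_max_right _ _) hm)
  have hmc : c_ ≤ m := le_trans (le_max_left _ _)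
    (le_trans (le_max_right _ _) (le_trans (le_max_right _ _) hm))
  have hmc' : c' ≤ m := le_trans (le_max_right _ _)
    (le_trans (le_max_right _ _) (le_trans (le_max_right _ _) hm))
  have hnum := hm₁ m hmm₁
  have hm0 : (0 : ℝ) < m := by exact_mod_cast hm1
  -- the growth
  have hgrow : ∀ t : ℕ, 1 ≤ t → ((finrank k (L ^ ((m + 1) * t) : Submodule k K) : ℕ) : ℝ) ≤
      (1 + ε) * (1 + 1 / (m : ℝ)) ^ n * finrank k (L ^ m : Submodule k K) * (t : ℝ) ^ n := by
    intro t ht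
    have h1 := hgood ((m + 1) * t) (by nlinarith)
    have h2 : (((m + 1) * t : ℕ) : ℝ) ^ n = (1 + 1 / (m : ℝ)) ^ n * (m : ℝ) ^ n * (t : ℝ) ^ n := by
      rw [← mul_pow, ← mul_pow]
      congr 1
      push_cast
      field_simp
    rw [h2] at h1
    have h3 : (0 : ℝ) < (m : ℝ) ^ n := by positivity
    have h4 : (1 + ε) * (TGh62.aN L m : ℝ) * ((1 + 1 / (m : ℝ)) ^ n * (m : ℝ) ^ n * (t : ℝ) ^ n) =
        ((1 + ε) * (1 + 1 / (m : ℝ)) ^ n * (TGh62.aN L m : ℝ) * (t : ℝ) ^ n) * (m : ℝ) ^ n := by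
      ring
    rw [h4] at h1
    exact le_of_mul_le_mul_right h1 h3
  have ha1 : 1 ≤ finrank k (L ^ m : Submodule k K) := TGh62.aN_pos L h1L m
  have hfdm : FiniteDimensional k (L ^ m : Submodule k K) := ALB.finite_pow _ _
  -- the potential
  let F : Submodule k K → ℕ → ℕ := fun W t =>
    T ^ n * finrank k ((W * L) ^ t : Submodule k K) + t ^ n * Ft q L (m + 1) (c_ + m) τ W T
  have hA : ∀ᶠ t in atTop, F (L ^ m) t <
      ((n + 7) * T ^ n) * finrank k (L ^ m : Submodule k K) * t ^ n := by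
    filter_upwards [eventually_ge_atTop 1] with t ht
    have h1 := hStart q L hL h1L c' hq c_ τ hτ hτL m hmc hmc' T
    have h2 : (L ^ m * L) ^ t = L ^ ((m + 1) * t) := by
      rw [← pow_succ, ← pow_mul]
    have h3 := hgrow t ht
    have h4 := hgrow T hT
    have hT0 : (0 : ℝ) < (T : ℝ) ^ n := by
      have : (0 : ℝ) < T := by exact_mod_cast hT
      positivity
    have ht0 : (0 : ℝ) < (t : ℝ) ^ n := by
      have : (0 : ℝ) < t := by exact_mod_cast ht
      positivity
    have ha1' : (1 : ℝ) ≤ finrank k (L ^ m : Submodule k K) := by exact_mod_cast ha1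
    set a : ℝ := ((finrank k (L ^ m : Submodule k K) : ℕ) : ℝ) with ha
    set B : ℝ := (1 + ε) * (1 + 1 / (m : ℝ)) ^ n with hB
    have h5 : ((Ft q L (m + 1) (c_ + m) τ (L ^ m) T : ℕ) : ℝ) ≤
        ((n : ℝ) + 5) * (B * a * (T : ℝ) ^ n) := by
      have h6 : ((Ft q L (m + 1) (c_ + m) τ (L ^ m) T : ℕ) : ℝ) ≤
          ((n : ℝ) + 5) * (finrank k (L ^ ((m + 1) * T) : Submodule k K) : ℕ) := by
        exact_mod_cast h1
      exact h6.trans (mul_le_mul_of_nonneg_left h4 (by positivity))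
    have h7 : ((F (L ^ m) t : ℕ) : ℝ) ≤ ((n : ℝ) + 6) * B * (a * (T : ℝ) ^ n * (t : ℝ) ^ n) := by
      simp only [F]
      rw [h2]
      push_cast
      calc (T : ℝ) ^ n * (finrank k (L ^ ((m + 1) * t) : Submodule k K) : ℕ) +
            (t : ℝ) ^ n * (Ft q L (m + 1) (c_ + m) τ (L ^ m) T : ℕ)
          ≤ (T : ℝ) ^ n * (B * a * (t : ℝ) ^ n) + (t : ℝ) ^ n * (((n : ℝ) + 5) *
              (B * a * (T : ℝ) ^ n)) :=
            add_le_add (mul_le_mul_of_nonneg_left h3 hT0.le) (mul_le_mul_of_nonneg_left h5 ht0.le)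
        _ = ((n : ℝ) + 6) * B * (a * (T : ℝ) ^ n * (t : ℝ) ^ n) := by ring
    have h8 : ((n : ℝ) + 6) * B * (a * (T : ℝ) ^ n * (t : ℝ) ^ n) <
        ((n : ℝ) + 7) * (a * (T : ℝ) ^ n * (t : ℝ) ^ n) :=
      mul_lt_mul_of_pos_right hnum (by positivity)
    have h9 : ((F (L ^ m) t : ℕ) : ℝ) < (((n + 7) * T ^ n) *
        finrank k (L ^ m : Submodule k K) * t ^ n : ℕ) := by
      push_cast
      calc ((F (L ^ m) t : ℕ) : ℝ) < ((n : ℝ) + 7) * (a * (T : ℝ) ^ n * (t : ℝ) ^ n) :=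
            lt_of_le_of_lt h7 h8
        _ = ((n : ℝ) + 7) * (T : ℝ) ^ n * a * (t : ℝ) ^ n := by ring
    exact_mod_cast h9
  obtain ⟨W, hWL, hW0, hWmin⟩ := exists_choiceQ (L ^ m) n ((n + 7) * T ^ n) F hA
  refine ⟨m, hm₀, W, hWL, hW0, fun V hV f₀ hf₀ => ?_⟩
  have hWfd : FiniteDimensional k W := Submodule.finiteDimensional_of_le hWL
  have hWfg : W.FG := Module.Finite.iff_fg.1 hWfd
  obtain ⟨w, hwmin⟩ := TG.exists_isMin (k := k) (V := V) hV.ov ⟨hWfg, hW0⟩
  have hHfg : (W * L).FG := hWfg.mul hL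
  -- `hx V W * L ≤ hx V (W * L)`
  have hsub : hx V W * L ≤ hx V (W * L) := by
    rw [Submodule.mul_le]
    intro a ha b hb
    refine ⟨Submodule.mul_mem_mul ha.1 hb, ?_⟩
    rcases eq_or_ne b 0 with rfl | hb0
    · exact Or.inl (mul_zero _)
    rcases ha.2 with h | ⟨y, hy, hay⟩
    · rw [h, zero_mul]
      exact Or.inl rfl
    · refine Or.inr ⟨y * b, Submodule.mul_mem_mul hy hb, ?_⟩
      rw [map_mul, map_mul]
      exact mul_lt_mul_of_pos_right hay (zero_lt_iff.2 ((Valuation.ne_zero_iff _).2 hb0))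
  have hfreq := hWmin (hx V W) (fun x hx => hx.1) (finrank_hx hV hWfg hwmin)
  -- the multiplicity part
  have hmul : ∀ t : ℕ, finrank k ((hx V W * L) ^ t : Submodule k K) +
      finrank k (ch (W * L) f₀ ⧸ mx (W * L) f₀ (hx V (W * L)) ^ t) ≤
      finrank k ((W * L) ^ t : Submodule k K) := by
    intro t
    have h1 := hD V hV (W * L) hHfg f₀ hf₀ (hx V W * L) hsub t ⊥ bot_le
    have h2 : ix (W * L) f₀ t ⊥ = ⊥ := by
      rw [ix, Ideal.span_eq_bot]
      rintro a ⟨f, hf, haf⟩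
      rw [Submodule.mem_bot] at hf
      rw [hf, zero_div] at haf
      exact Subtype.ext haf
    rw [h2, bot_sup_eq, bot_sup_eq] at h1
    exact h1
  -- a spanning family exists
  have hstepV : ∀ (h : ℕ) (e : Fin h → K), Submodule.span k (Set.range e) = hx V (W * L) →
      ∃ Φ : MvPolynomial (Fin (n + 1) × Fin h) k, Φ ≠ 0 ∧ ∀ c, MvPolynomial.eval c Φ ≠ 0 →
      q (tup f₀ e c) ≠ 0 ∧
      Ft q L (m + 1) (c_ + m) τ (hx V W) T +
        loc L W (m + 1) (c_ + m) τ f₀ (q (tup f₀ e c)) V T ≤ Ft q L (m + 1) (c_ + m) τ W T :=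
    fun h e he => hStep hinf q L hL h1L hw (m + 1) (c_ + m) τ hτ W hWfg hW0 V hV f₀ hf₀ h e he T
  have hFt : Ft q L (m + 1) (c_ + m) τ (hx V W) T ≤ Ft q L (m + 1) (c_ + m) τ W T := by
    have hfg : (hx V (W * L)).FG := by
      have hfd : FiniteDimensional k (W * L : Submodule k K) := Module.Finite.iff_fg.2 hHfg
      have : FiniteDimensional k (hx V (W * L)) :=
        Submodule.finiteDimensional_of_le (fun x hx => hx.1)
      exact Module.Finite.iff_fg.1 this
    obtain ⟨h, e, he⟩ := Submodule.fg_iff_exists_fin_generating_family.1 hfg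
    obtain ⟨Φ, hΦ, hΦc⟩ := hstepV h e he
    obtain ⟨c, hc⟩ : ∃ c, MvPolynomial.eval c Φ ≠ 0 := by
      by_contra hcon
      push Not at hcon
      exact hΦ (MvPolynomial.funext fun c => by rw [hcon c, map_zero])
    exact (Nat.le_add_right _ _).trans (hΦc c hc).2
  refine ⟨?_, ?_⟩
  · refine (hfreq.and_eventually (eventually_ge_atTop 1)).mono fun t ht => ?_
    obtain ⟨ht1, ht2⟩ := ht
    have h1 := hmul t
    simp only [F] at ht1
    have h2 : t ^ n * Ft q L (m + 1) (c_ + m) τ (hx V W) T ≤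
        t ^ n * Ft q L (m + 1) (c_ + m) τ W T := Nat.mul_le_mul_left _ hFt
    have h3 : T ^ n * finrank k ((hx V W * L) ^ t : Submodule k K) +
        T ^ n * finrank k (ch (W * L) f₀ ⧸ mx (W * L) f₀ (hx V (W * L)) ^ t) ≤
        T ^ n * finrank k ((W * L) ^ t : Submodule k K) := by
      rw [← mul_add]
      exact Nat.mul_le_mul_left _ h1
    have h4 : T ^ n * finrank k (ch (W * L) f₀ ⧸ mx (W * L) f₀ (hx V (W * L)) ^ t) <
        T ^ n * ((n + 7) * t ^ n) := by
      have h5 : (n + 7) * T ^ n * t ^ n = T ^ n * ((n + 7) * t ^ n) := by ring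
      rw [h5] at ht1
      omega
    exact Nat.lt_of_mul_lt_mul_left h4
  · intro h e he
    obtain ⟨Φ, hΦ, hΦc⟩ := hstepV h e he
    refine ⟨Φ, hΦ, fun c hc => ⟨(hΦc c hc).1, ?_⟩⟩
    obtain ⟨t, ht1, ht2⟩ := (hfreq.and_eventually (eventually_ge_atTop 1)).exists
    have h1 := (hΦc c hc).2
    have h2 := hmul t
    simp only [F] at ht1
    have h3 : T ^ n * finrank k ((hx V W * L) ^ t : Submodule k K) ≤
        T ^ n * finrank k ((W * L) ^ t : Submodule k K) :=
      Nat.mul_le_mul_left _ ((Nat.le_add_right _ _).trans h2)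
    have h4 : t ^ n * Ft q L (m + 1) (c_ + m) τ (hx V W) T +
        t ^ n * loc L W (m + 1) (c_ + m) τ f₀ (q (tup f₀ e c)) V T ≤
        t ^ n * Ft q L (m + 1) (c_ + m) τ W T := by
      rw [← mul_add]
      exact Nat.mul_le_mul_left _ h1
    have h5 : t ^ n * loc L W (m + 1) (c_ + m) τ f₀ (q (tup f₀ e c)) V T <
        t ^ n * ((n + 7) * T ^ n) := by
      have h6 : (n + 7) * T ^ n * t ^ n = t ^ n * ((n + 7) * T ^ n) := by ring
      rw [h6] at ht1
      omega
    exact Nat.lt_of_mul_lt_mul_left h5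

end Main

end Pool.Agent.TGBC
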