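import Pool.Agent.Lib.TGBC_h29.Rows
import Pool.Agent.Lib.TGBC_h32.GL

/-!
# TANK G, the bridge: leading forms with all pure powers, after one linear change
-/

set_option autoImplicit false

namespace Pool.Agent.TGBC

open MvPolynomial Module
open Pool.Agent.TGBC74 (T₀ exists_alpha eval_single exists_lowest)
open Pool.Agent.TG (Ov ZDim IsMin ch)
open Pool.Agent.TG15
open Pool.Agent.TGBC32 (lin linS)

universe u

section Alg

variable {k : Type*} [Field k] {R : Type*} [CommRing R] [Algebra k R] {n : ℕ}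

/-- A matrix whose columns avoid the zeros of finitely many forms. -/
theorem exists_matrix [Infinite k] {ι : Type*} [Fintype ι] (α : ι → MvPolynomial (Fin n) k)
    (hα : ∀ l, α l ≠ 0) : ∃ B : Matrix (Fin n) (Fin n) k, B.det ≠ 0 ∧
      ∀ l i, eval (fun j => B j i) (α l) ≠ 0 := by
  classical
  let G : Matrix (Fin n) (Fin n) (MvPolynomial (Fin n × Fin n) k) :=
    Matrix.of fun i j => X (i, j)
  let P : MvPolynomial (Fin n × Fin n) k :=
    G.det * ∏ l : ι, ∏ i : Fin n, rename (fun j => (j, i)) (α l)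
  have hG : G.det ≠ 0 := by
    intro h
    have h1 := congrArg (eval fun p : Fin n × Fin n => (1 : Matrix (Fin n) (Fin n) k) p.1 p.2) h
    rw [RingHom.map_det, map_zero] at h1
    have h2 : (eval fun p : Fin n × Fin n => (1 : Matrix (Fin n) (Fin n) k) p.1 p.2).mapMatrix G =
        1 := by
      ext i j
      rw [RingHom.mapMatrix_apply, Matrix.map_apply]
      show eval _ (X (i, j)) = _
      rw [eval_X]
    rw [h2, Matrix.det_one] at h1
    exact one_ne_zero h1
  have hP : P ≠ 0 := by
    refine mul_ne_zero hG (Finset.prod_ne_zero_iff.2 fun l _ => Finset.prod_ne_zero_iff.2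
      fun i _ h => hα l ?_)
    exact rename_injective _ (fun a b hab => (Prod.mk.inj hab).1) (by rw [h, map_zero])
  obtain ⟨c, hc⟩ : ∃ c : Fin n × Fin n → k, eval c P ≠ 0 := by
    by_contra hcon
    push Not at hcon
    exact hP (MvPolynomial.funext fun c => by rw [hcon c, map_zero])
  refine ⟨Matrix.of fun i j => c (i, j), ?_, fun l i => ?_⟩
  · have h1 := left_ne_zero_of_mul (a := eval c G.det)
      (b := eval c (∏ l : ι, ∏ i : Fin n, rename (fun j => (j, i)) (α l)))
      (by rw [← map_mul]; exact hc)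
    rw [RingHom.map_det] at h1
    have h2 : (eval c).mapMatrix G = Matrix.of fun i j => c (i, j) := by
      ext i j
      rw [RingHom.mapMatrix_apply, Matrix.map_apply]
      show eval _ (X (i, j)) = _
      rw [eval_X, Matrix.of_apply]
    rwa [h2] at h1
  · have h1 := right_ne_zero_of_mul (a := eval c G.det)
      (b := eval c (∏ l : ι, ∏ i : Fin n, rename (fun j => (j, i)) (α l)))
      (by rw [← map_mul]; exact hc)
    rw [map_prod, Finset.prod_ne_zero_iff] at h1
    have h2 := h1 l (Finset.mem_univ _)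
    rw [map_prod, Finset.prod_ne_zero_iff] at h2
    have h3 := h2 i (Finset.mem_univ _)
    rw [eval_rename] at h3
    exact h3

/-- **ALPHA for two ideals, all pure powers occur.** -/
theorem exists_alpha_all [Infinite k] (m : Ideal R) (J : Bool → Ideal R)
    (u : Fin n → R) (hu : ∀ i, u i ∈ m) (hfin : ∀ l i, Module.Finite k (R ⧸ (J l ⊔ m ^ i)))
    (hB : ∀ l, ∑ i ∈ Finset.range (T₀ n), finrank k (R ⧸ (J l ⊔ m ^ i)) <
      (n + 7) * T₀ n ^ n) :
    ∃ A : Matrix (Fin n) (Fin n) k, A.det ≠ 0 ∧ ∀ l,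
      LeadA k m (J l) (fun i => ∑ j, algebraMap k R (A i j) * u j) (T₀ n) := by
  classical
  have h := fun l => exists_alpha m (J l) u hu (hfin l) (hB l)
  choose d hd α hα0 hα a ha hαm using h
  obtain ⟨B, hdet, hβα⟩ := exists_matrix α hα0
  have hBu : IsUnit B.det := isUnit_iff_ne_zero.2 hdet
  refine ⟨B⁻¹, ?_, fun l => ?_⟩
  · exact (Matrix.isUnit_nonsing_inv_det B hBu).ne_zero
  · set u' : Fin n → R := fun i => ∑ j, algebraMap k R (B⁻¹ i j) * u j with hu'
    have huu : ∀ i, u i = ∑ j, algebraMap k R (B i j) * u' j := by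
      intro i
      have h1 : ∑ j, algebraMap k R (B i j) * u' j =
          ∑ l, algebraMap k R ((B * B⁻¹) i l) * u l := by
        simp only [hu', Finset.mul_sum, Matrix.mul_apply, map_sum, map_mul, Finset.sum_mul]
        rw [Finset.sum_comm]
        refine Finset.sum_congr rfl fun x _ => Finset.sum_congr rfl fun y _ => ?_
        ring
      rw [h1, Matrix.mul_nonsing_inv _ hBu]
      rw [Finset.sum_eq_single i]
      · rw [Matrix.one_apply_eq, map_one, one_mul]
      · intro j _ hj
        rw [Matrix.one_apply_ne (Ne.symm hj), map_zero, zero_mul]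
      · intro hh
        exact absurd (Finset.mem_univ _) hh
    let lin : Fin n → MvPolynomial (Fin n) k := fun i => ∑ j, C (B i j) * X j
    have hlin : ∀ i, (lin i).IsHomogeneous 1 := fun i =>
      IsHomogeneous.sum _ _ _ fun j _ => by
        have := (isHomogeneous_C (Fin n) (B i j)).mul (isHomogeneous_X k j)
        rwa [zero_add] at this
    have hα' : (aeval lin (α l)).IsHomogeneous (d l) := by
      have := (hα l).aeval lin hlin
      rwa [one_mul] at this
    refine ⟨d l, hd l, aeval lin (α l), hα', fun i₀ => ?_, a l, ha l, ?_⟩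
    · rw [← eval_single hα' i₀]
      have h1 : eval (Pi.single i₀ (1 : k)) (aeval lin (α l)) =
          eval (fun j => B j i₀) (α l) := by
        have h2 : (eval (Pi.single i₀ (1 : k)) : MvPolynomial (Fin n) k →+* k) (aeval lin (α l)) =
            eval (fun i => eval (Pi.single i₀ (1 : k)) (lin i)) (α l) := by
          rw [← coe_aeval_eq_eval, ← coe_aeval_eq_eval]
          change ((aeval (Pi.single i₀ (1 : k)) : MvPolynomial (Fin n) k →ₐ[k] k).comp
            (aeval lin)) (α l) = aeval (fun i => eval (Pi.single i₀ (1 : k)) (lin i)) (α l)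
          rw [comp_aeval]
          rfl
        rw [h2]
        congr 1
        congr 1
        funext i
        simp only [lin, map_sum, map_mul, eval_C, eval_X]
        rw [Finset.sum_eq_single i₀]
        · rw [Pi.single_eq_same, mul_one]
        · intro j _ hj
          rw [Pi.single_eq_of_ne hj, mul_zero]
        · intro hh
          exact absurd (Finset.mem_univ _) hh
      rw [h1]
      exact hβα l i₀
    · have h1 : aeval u' (aeval lin (α l)) = aeval u (α l) := by
        change ((aeval u' : MvPolynomial (Fin n) k →ₐ[k] R).comp (aeval lin)) (α l) = _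
        rw [comp_aeval]
        congr 1
        congr 1
        funext i
        rw [huu i]
        simp only [lin, map_sum, map_mul, aeval_X, algHom_C]
      rw [h1]
      exact hαm l

end Alg

section Point

variable {k K : Type u} [Field k] [Field K] [Algebra k K] {H : Submodule k K}

theorem uvec_linS' {n : ℕ} (A : Matrix (Fin n) (Fin n) k) (g : Fin (n + 1) → K)
    (hg : ∀ l : Fin n, g l.succ ∈ H) (hg' : ∀ l : Fin n, linS A g l.succ ∈ H) :
    uvec (linS A g) hg' = fun i => ∑ j, algebraMap k (ch H (g 0)) (A i j) * uvec g hg j := by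
  funext i
  refine Subtype.ext ?_
  rw [uvec_coe, TGBC32.linS_div, TGBC32.lin_apply]
  have h1 : ((∑ j, algebraMap k (ch H (g 0)) (A i j) * uvec g hg j : ch H (g 0)) : K) =
      ∑ j, ((algebraMap k (ch H (g 0)) (A i j) * uvec g hg j : ch H (g 0)) : K) :=
    AddSubmonoidClass.coe_finsetSum _ _
  rw [h1]
  refine Finset.sum_congr rfl fun j _ => ?_
  rw [Algebra.smul_def]
  rfl

/-- **The good tuple at every point, with leading forms containing all pure powers.** -/
def G1All (k K : Type u) [Field k] [Field K] [Algebra k K] (n : ℕ) : Prop :=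
  Infinite k → Algebra.trdeg k K = n → ∀
  (q : K [⋀^Fin (n + 1)]→ₗ[k] K) (L : Submodule k K), L.FG → 1 ∈ L →
    (∀ w : K, w ≠ 0 → ∃ g : Fin (n + 1) → K, (∀ j, g j ∈ (k ∙ w) * L) ∧ q g ≠ 0) → ∀ c' : ℕ,
    (∀ (M : ℕ) (g : Fin (n + 1) → K), (∀ j, g j ∈ L ^ M) → q g ∈ L ^ ((n + 1) * M + c')) →
    ∀ (c_ : ℕ) (τ : K), τ ≠ 0 → τ ∈ L ^ c_ → ∀ m₀ : ℕ,
    ∃ m ≥ m₀, ∃ W ≤ L ^ m, W ≠ ⊥ ∧
    ∀ V : ValuationSubring K, ZDim k V → ∃ g : Fin (n + 1) → K,
      PtData q L W (m + 1) (c_ + m) τ V (T₀ n) g ∧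
      ∃ hg : ∀ l : Fin n, g l.succ ∈ W * L,
        LeadA k (mx (W * L) (g 0) (hx V (W * L))) (bx L (W * L) (m + 1) (g 0) (q g)) (uvec g hg)
          (T₀ n) ∧
        LeadA k (mx (W * L) (g 0) (hx V (W * L))) (tx L W (c_ + m) τ (g 0)) (uvec g hg) (T₀ n)

theorem g1All (k K : Type u) [Field k] [Field K] [Algebra k K] (n : ℕ) : G1All k K n := by
  intro hinf htr q L hL h1L hw c' hq c_ τ hτ hτL m₀
  obtain ⟨m, hm, W, hWL, hW0, hW⟩ := g1Pt k K n hinf htr q L hL h1L hw c' hq c_ τ hτ hτL
    (T₀ n) (TGBC74.T₀_pos n) m₀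
  refine ⟨m, hm, W, hWL, hW0, fun V hV => ?_⟩
  obtain ⟨g, hg⟩ := hW V hV
  have hfdm : FiniteDimensional k (L ^ m : Submodule k K) := by
    have hfdL : FiniteDimensional k L := Module.Finite.iff_fg.2 hL
    exact ALB.finite_pow _ _
  have hWfd : FiniteDimensional k W := Submodule.finiteDimensional_of_le hWL
  have hHfg : (W * L).FG := (Module.Finite.iff_fg.1 hWfd).mul hL
  have hgH : ∀ l : Fin n, g l.succ ∈ W * L := fun l => hx_le (hg.mem l)
  set R := ch (W * L) (g 0) with hR
  set mm : Ideal R := mx (W * L) (g 0) (hx V (W * L)) with hmm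
  let J : Bool → Ideal R := fun l =>
    if l = true then bx L (W * L) (m + 1) (g 0) (q g) else tx L W (c_ + m) τ (g 0)
  have hu : ∀ l : Fin n, uvec g hgH l ∈ mm := fun l => Ideal.subset_span ⟨g l.succ, hg.mem l, rfl⟩
  have hfin : ∀ l i, Module.Finite k (R ⧸ (J l ⊔ mm ^ i)) := fun l i =>
    finite_quot hV hHfg hg.min i _ le_sup_right
  have hB : ∀ l, ∑ i ∈ Finset.range (T₀ n), finrank k (R ⧸ (J l ⊔ mm ^ i)) <
      (n + 7) * T₀ n ^ n := by
    intro l
    refine lt_of_le_of_lt ?_ hg.loc
    rw [loc, Finset.sum_add_distrib]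
    cases l
    · exact (Nat.le_add_left _ _).trans (Nat.le_add_left _ _)
    · exact (Nat.le_add_right _ _).trans (Nat.le_add_left _ _)
  obtain ⟨A, hA, hlead⟩ := exists_alpha_all mm J (uvec g hgH) hu hfin hB
  have hmem' : ∀ l : Fin n, linS A g l.succ ∈ hx V (W * L) := by
    intro l
    rw [TGBC32.linS_succ]
    exact TGBC32.lin_mem A hg.mem l
  have hgH' : ∀ l : Fin n, linS A g l.succ ∈ W * L := fun l => hx_le (hmem' l)
  have hspan : Submodule.span k (Set.range fun l : Fin n => linS A g l.succ) =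
      Submodule.span k (Set.range fun l : Fin n => g l.succ) :=
    TGBC32.span_lin hA fun l : Fin n => g l.succ
  have hbx : ∀ f₀ : K, bx L (W * L) (m + 1) f₀ (q (linS A g)) = bx L (W * L) (m + 1) f₀ (q g) :=
    TGBC32.bx_linS q hA g L (W * L) (m + 1)
  refine ⟨linS A g, ⟨hg.min, hmem', TGBC32.alt_linS_ne hA hg.q0, ?_, hg.mult, ?_⟩, hgH', ?_, ?_⟩
  · rw [hspan]
    exact hg.red
  · have h1 := hg.loc
    rw [loc] at h1 ⊢
    rw [TGBC32.linS_zero, hbx]
    exact h1
  · rw [hbx]
    obtain ⟨b, hb, α, hα, hα0, a, ha, hm⟩ := hlead true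
    exact ⟨b, hb, α, hα, hα0, a, ha, by rw [uvec_linS' A g hgH hgH']; exact hm⟩
  · obtain ⟨b, hb, α, hα, hα0, a, ha, hm⟩ := hlead false
    exact ⟨b, hb, α, hα, hα0, a, ha, by rw [uvec_linS' A g hgH hgH']; exact hm⟩

end Point

end Pool.Agent.TGBC
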