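import Pool.Agent.Lib.TG15.LemDF

/-!
# TANK G, the bridge: independence of the chart
-/

set_option autoImplicit false

namespace Pool.Agent.TGBC

open Pool.Agent.TG (Ov ZDim IsMin ch)
open Pool.Agent.TG15
open Module

universe u

variable {k K : Type u} [Field k] [Field K] [Algebra k K] {V : ValuationSubring K}
  {H : Submodule k K} {f g : K}

theorem mul_pow_mem (hf : f ∈ H) {h : K} (s : ℕ) (hh : h ∈ H ^ s) (t : ℕ) :
    h * f ^ t ∈ H ^ (s + t) := by
  rw [pow_add]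
  exact Submodule.mul_mem_mul hh (Submodule.pow_mem_pow _ hf t)

/-- Elements of the chart are `h / f ^ s`, `h ∈ H ^ s`. -/
theorem exists_num (hf : f ∈ H) (hf0 : f ≠ 0) (a : ch H f) :
    ∃ s : ℕ, ∃ h ∈ H ^ s, (a : K) = h / f ^ s := by
  obtain ⟨a, ha⟩ := a
  show ∃ s : ℕ, ∃ h ∈ H ^ s, a = h / f ^ s
  refine Algebra.adjoin_induction (R := k) (s := (fun g => g / f) '' (H : Set K))
    (p := fun a _ => ∃ s : ℕ, ∃ h ∈ H ^ s, a = h / f ^ s) ?_ ?_ ?_ ?_ ha
  · rintro _ ⟨h, hh, rfl⟩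
    exact ⟨1, h, by rwa [pow_one], by rw [pow_one]⟩
  · intro c
    exact ⟨0, algebraMap k K c, by rw [pow_zero]; exact Submodule.mem_one.2 ⟨c, rfl⟩,
      by rw [pow_zero, div_one]⟩
  · rintro x y _ _ ⟨s, h, hh, rfl⟩ ⟨t, h', hh', rfl⟩
    refine ⟨s + t, h * f ^ t + h' * f ^ s, add_mem (mul_pow_mem hf s hh t) ?_, ?_⟩
    · rw [add_comm s t]
      exact mul_pow_mem hf t hh' s
    · rw [pow_add]
      field_simp
  · rintro x y _ _ ⟨s, h, hh, rfl⟩ ⟨t, h', hh', rfl⟩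
    refine ⟨s + t, h * h', ?_, ?_⟩
    · rw [pow_add]
      exact Submodule.mul_mem_mul hh hh'
    · rw [pow_add, div_mul_div_comm]

/-- `a ∈ ch H f` with `a (f / g) ^ t ∈ J` for some `t`. -/
def tr (hf : f ∈ H) (hf0 : f ≠ 0) (J : Ideal (ch H g)) : Ideal (ch H f) where
  carrier := {a | ∃ t : ℕ, ∃ b ∈ J, (b : K) = a * (f / g) ^ t}
  add_mem' := by
    rintro a a' ⟨t, b, hb, hba⟩ ⟨t', b', hb', hba'⟩
    have hfg : f / g ∈ ch H g := TG.div_mem_ch hf
    refine ⟨t + t', b * ⟨f / g, hfg⟩ ^ t' + b' * ⟨f / g, hfg⟩ ^ t,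
      J.add_mem (J.mul_mem_right _ hb) (J.mul_mem_right _ hb'), ?_⟩
    show (b : K) * (f / g) ^ t' + (b' : K) * (f / g) ^ t = ((a : K) + a') * (f / g) ^ (t + t')
    rw [hba, hba', pow_add]
    ring
  zero_mem' := ⟨0, 0, J.zero_mem, by simp⟩
  smul_mem' := by
    rintro r a ⟨t, b, hb, hba⟩
    obtain ⟨s, h, hh, hr⟩ := exists_num hf hf0 r
    refine ⟨t + s, ⟨h / g ^ s, pow_div_mem_ch H g s hh⟩ * b, J.mul_mem_left _ hb, ?_⟩
    show h / g ^ s * (b : K) = (r : K) * (a : K) * (f / g) ^ (t + s)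
    have h1 : h = (r : K) * f ^ s := by
      rw [hr, div_mul_cancel₀ _ (pow_ne_zero _ hf0)]
    rw [hba, h1, pow_add, div_pow f g s]
    ring

theorem mem_tr {hf : f ∈ H} {hf0 : f ≠ 0} {J : Ideal (ch H g)} {a : ch H f} :
    a ∈ tr hf hf0 J ↔ ∃ t : ℕ, ∃ b ∈ J, (b : K) = a * (f / g) ^ t := Iff.rfl

theorem tr_mono {hf : f ∈ H} {hf0 : f ≠ 0} {J J' : Ideal (ch H g)} (h : J ≤ J') :
    tr hf hf0 J ≤ tr hf hf0 J' := by
  rintro a ⟨t, b, hb, hba⟩
  exact ⟨t, b, h hb, hba⟩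

theorem ix_le_tr (hf : f ∈ H) (hf0 : f ≠ 0) {i : ℕ} {E : Submodule k K} (hE : E ≤ H ^ i) :
    ix H f i E ≤ tr hf hf0 (ix H g i E) := by
  refine Ideal.span_le.2 ?_
  rintro a ⟨h, hh, ha⟩
  refine ⟨i, ⟨h / g ^ i, pow_div_mem_ch H g i (hE hh)⟩, Ideal.subset_span ⟨h, hh, rfl⟩, ?_⟩
  show h / g ^ i = (a : K) * (f / g) ^ i
  rw [ha, div_pow]
  have := pow_ne_zero i hf0
  field_simp

/-- The product of two ideals of the chart. -/
theorem ix_mul_ix {i j : ℕ} {E F : Submodule k K} (hE : E ≤ H ^ i) (hF : F ≤ H ^ j) :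
    ix H f i E * ix H f j F = ix H f (i + j) (E * F) := by
  refine le_antisymm ?_ ?_
  · rw [ix, ix, Ideal.span_mul_span', Ideal.span_le]
    rintro _ ⟨a, ⟨h, hh, ha⟩, b, ⟨h', hh', hb⟩, rfl⟩
    refine Ideal.subset_span ⟨h * h', Submodule.mul_mem_mul hh hh', ?_⟩
    show (a : K) * (b : K) = _
    rw [ha, hb, pow_add, div_mul_div_comm]
  · refine Ideal.span_le.2 ?_
    rintro a ⟨h, hh, ha⟩
    have key : ∀ h ∈ E * F, ∃ b ∈ ix H f i E * ix H f j F, (b : K) = h / f ^ (i + j) := by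
      intro h hh
      refine Submodule.mul_induction_on hh ?_ ?_
      · intro x hx y hy
        refine ⟨⟨x / f ^ i, pow_div_mem_ch H f i (hE hx)⟩ *
          ⟨y / f ^ j, pow_div_mem_ch H f j (hF hy)⟩, Ideal.mul_mem_mul
            (Ideal.subset_span ⟨x, hx, rfl⟩) (Ideal.subset_span ⟨y, hy, rfl⟩), ?_⟩
        show x / f ^ i * (y / f ^ j) = _
        rw [pow_add, div_mul_div_comm]
      · rintro x y ⟨b, hb, hbx⟩ ⟨c, hc, hcy⟩
        refine ⟨b + c, Ideal.add_mem _ hb hc, ?_⟩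
        show (b : K) + (c : K) = _
        rw [hbx, hcy, add_div]
    obtain ⟨b, hb, hbh⟩ := key h hh
    have : a = b := Subtype.ext (by rw [ha, hbh])
    rw [this]
    exact hb

theorem mx_eq_ix (X : Submodule k K) : mx H f X = ix H f 1 X := by
  rw [mx, ix]
  simp only [pow_one]

theorem mx_pow (X : Submodule k K) (hX : X ≤ H) (i : ℕ) : mx H f X ^ i = ix H f i (X ^ i) := by
  induction i with
  | zero =>
    rw [pow_zero, pow_zero, Ideal.one_eq_top, eq_comm, Ideal.eq_top_iff_one]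
    refine Ideal.subset_span ⟨1, Submodule.one_le.1 le_rfl, ?_⟩
    rw [pow_zero, div_one]
    rfl
  | succ i ih =>
    rw [pow_succ, ih, mx_eq_ix, ix_mul_ix (pow_mono hX i) (by rwa [pow_one]), pow_succ]

/-- `f / g` is a unit modulo `m ^ i`. -/
theorem exists_inv_mod (hV : ZDim k V) (hf : IsMin V H f) (hg : IsMin V H g) (i : ℕ)
    (y : ch H g) (hy : (y : K) = f / g) : ∃ w : ch H g, 1 - w * y ∈ mx H g (hx V H) ^ i := by
  have hmax := mx_isMaximal hV hg
  have h1 : y ∉ mx H g (hx V H) := by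
    intro h
    have h2 : V.valuation (y : K) < 1 := by
      refine Submodule.span_induction (R := ch H g) (M := ch H g)
        (s := {a | ∃ h ∈ hx V H, (a : K) = h / g})
        (p := fun (a : ch H g) _ => V.valuation (a : K) < 1) ?_ ?_ ?_ ?_ h
      · rintro a ⟨x, hx', hxa⟩
        rw [hxa]
        have h0 : V.valuation g ≠ 0 := (Valuation.ne_zero_iff _).2 hg.ne
        rcases hx'.2 with rfl | ⟨z, hz, hlt⟩
        · rw [zero_div, map_zero]
          exact zero_lt_one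
        · have h2 : V.valuation z ≤ V.valuation g := by
            have h3 := (V.valuation_le_one_iff _).2 (hg.div z hz)
            rw [map_div₀] at h3
            exact (div_le_one₀ (zero_lt_iff.2 h0)).1 h3
          rw [map_div₀, div_lt_one₀ (zero_lt_iff.2 h0)]
          exact hlt.trans_le h2
      · show V.valuation (0 : K) < 1
        rw [map_zero]
        exact zero_lt_one
      · intro x y _ _ hx' hy'
        exact (V.valuation.map_add _ _).trans_lt (max_lt hx' hy')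
      · intro r x _ hx'
        show V.valuation ((r : K) * (x : K)) < 1
        rw [map_mul]
        have h3 : V.valuation (r : K) ≤ 1 := (V.valuation_le_one_iff _).2 (TG.ch_le hV.ov hg _ r.2)
        calc V.valuation (r : K) * V.valuation (x : K) ≤ 1 * V.valuation (x : K) := by gcongr
          _ < 1 := by rw [one_mul]; exact hx'
    rw [hy, TG.val_div_eq_one hg hf] at h2
    exact lt_irrefl _ h2
  obtain ⟨w, m, hm, hwm⟩ : ∃ w, ∃ m ∈ mx H g (hx V H), w * y + m = 1 := by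
    obtain ⟨a, ha⟩ := Ideal.Quotient.exists_inv (I := mx H g (hx V H))
      (a := Ideal.Quotient.mk _ y) (fun h => h1 (Ideal.Quotient.eq_zero_iff_mem.1 h))
    obtain ⟨w, rfl⟩ := Ideal.Quotient.mk_surjective a
    rw [← map_mul, ← map_one (Ideal.Quotient.mk (mx H g (hx V H))), eq_comm,
      Ideal.Quotient.eq] at ha
    refine ⟨w, 1 - y * w, ha, by ring⟩
  -- `1 - (1 - w y) ^ i` is a multiple of `y`
  obtain ⟨v, hv⟩ : ∃ v, 1 - (1 - w * y) ^ i = y * v := by
    have h2 : (1 : ch H g) - (1 - w * y) ∣ 1 ^ i - (1 - w * y) ^ i := sub_dvd_pow_sub_pow _ _ _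
    rw [one_pow, sub_sub_cancel] at h2
    obtain ⟨v, hv⟩ := h2
    exact ⟨w * v, by rw [hv]; ring⟩
  refine ⟨v, ?_⟩
  have h3 : 1 - v * y = (1 - w * y) ^ i := by
    rw [mul_comm v y, ← hv]
    ring
  rw [h3]
  have h4 : 1 - w * y = m := by rw [← hwm]; ring
  rw [h4]
  exact Ideal.pow_mem_pow hm i

/-- The key lemma: numerators. -/
theorem mem_of_tr (hV : ZDim k V) (hf : IsMin V H f) (hg : IsMin V H g) {i : ℕ}
    {J : Ideal (ch H g)} (hJ : mx H g (hx V H) ^ i ≤ J) {j : ℕ} {h : K} (hh : h ∈ H ^ j)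
    {a : ch H f} (ha : (a : K) = h / f ^ j) (haJ : a ∈ tr hf.mem hf.ne J)
    {b : ch H g} (hb : (b : K) = h / g ^ j) : b ∈ J := by
  obtain ⟨t, c, hc, hca⟩ := haJ
  have hfg : f / g ∈ ch H g := TG.div_mem_ch hf.mem
  obtain ⟨y, hy⟩ : ∃ y : ch H g, (y : K) = f / g := ⟨⟨_, hfg⟩, rfl⟩
  obtain ⟨w, hw⟩ := exists_inv_mod hV hf hg i y hy
  have h1 : b * y ^ t = c * y ^ j := by
    refine Subtype.ext ?_
    show (b : K) * (y : K) ^ t = (c : K) * (y : K) ^ j
    rw [hca, hb, ha, hy]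
    have h2 : (f / g) ^ j = f ^ j / g ^ j := div_pow _ _ _
    rw [h2]
    have := pow_ne_zero j hf.ne
    field_simp
  have h2 : b * y ^ t ∈ J := by
    rw [h1]
    exact J.mul_mem_right _ hc
  -- cancel `y`
  have h3 : ∀ s : ℕ, b * y ^ s ∈ J → b ∈ J := by
    intro s
    induction s with
    | zero =>
      intro h
      rwa [pow_zero, mul_one] at h
    | succ s ih =>
      intro h
      refine ih ?_
      have h4 : b * y ^ s = w * (b * y ^ (s + 1)) + b * y ^ s * (1 - w * y) := by ring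
      rw [h4]
      exact J.add_mem (J.mul_mem_left _ h) (J.mul_mem_left _ (hJ hw))
  exact h3 t h2

/-- **Independence of the chart.** -/
theorem finrank_chart (hV : ZDim k V) (hH : H.FG) (hf : IsMin V H f) (hg : IsMin V H g) (i : ℕ)
    {Jf : Ideal (ch H f)} {Jg : Ideal (ch H g)} (hf1 : mx H f (hx V H) ^ i ≤ Jf)
    (hg1 : mx H g (hx V H) ^ i ≤ Jg) (h1 : Jf ≤ tr hf.mem hf.ne Jg)
    (h2 : Jg ≤ tr hg.mem hg.ne Jf) :
    finrank k (ch H f ⧸ Jf) = finrank k (ch H g ⧸ Jg) := by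
  haveI : FiniteDimensional k (H ^ i : Submodule k K) := Module.Finite.iff_fg.2 (hH.pow i)
  have hsf := surjective_mk hV hf i Jf hf1
  have hsg := surjective_mk hV hg i Jg hg1
  have hker : LinearMap.ker ((Ideal.Quotient.mkₐ k Jf).toLinearMap.comp (dvL H f i)) =
      LinearMap.ker ((Ideal.Quotient.mkₐ k Jg).toLinearMap.comp (dvL H g i)) := by
    ext x
    rw [LinearMap.mem_ker, LinearMap.mem_ker]
    have e1 : ((Ideal.Quotient.mkₐ k Jf).toLinearMap.comp (dvL H f i)) x = 0 ↔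
        dvL H f i x ∈ Jf := Ideal.Quotient.eq_zero_iff_mem
    have e2 : ((Ideal.Quotient.mkₐ k Jg).toLinearMap.comp (dvL H g i)) x = 0 ↔
        dvL H g i x ∈ Jg := Ideal.Quotient.eq_zero_iff_mem
    rw [e1, e2]
    exact ⟨fun h => mem_of_tr hV hf hg hg1 x.2 (dvL_coe H f i x) (h1 h) (dvL_coe H g i x),
      fun h => mem_of_tr hV hg hf hf1 x.2 (dvL_coe H g i x) (h2 h) (dvL_coe H f i x)⟩
  have e1 := LinearMap.finrank_range_add_finrank_ker
    ((Ideal.Quotient.mkₐ k Jf).toLinearMap.comp (dvL H f i))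
  have e2 := LinearMap.finrank_range_add_finrank_ker
    ((Ideal.Quotient.mkₐ k Jg).toLinearMap.comp (dvL H g i))
  rw [LinearMap.range_eq_top.2 hsf, finrank_top, hker] at e1
  rw [LinearMap.range_eq_top.2 hsg, finrank_top] at e2
  omega

/-- The ideals of graded families correspond. -/
theorem iSup_ix_le_tr (hf : f ∈ H) (hf0 : f ≠ 0) {E : ℕ → Submodule k K}
    (hE : ∀ i, E i ≤ H ^ i) : ⨆ i, ix H f i (E i) ≤ tr hf hf0 (⨆ i, ix H g i (E i)) :=
  iSup_le fun i => (ix_le_tr hf hf0 (hE i)).trans (tr_mono (le_iSup (fun i => ix H g i (E i)) i))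

theorem mx_pow_le_tr (hf : f ∈ H) (hf0 : f ≠ 0) {X : Submodule k K} (hX : X ≤ H) (i : ℕ) :
    mx H f X ^ i ≤ tr hf hf0 (mx H g X ^ i) := by
  rw [mx_pow X hX, mx_pow X hX]
  exact ix_le_tr hf hf0 (pow_mono hX i)

theorem finrank_mx_pow (hV : ZDim k V) (hH : H.FG) (hf : IsMin V H f) (hg : IsMin V H g) (i : ℕ) :
    finrank k (ch H f ⧸ mx H f (hx V H) ^ i) = finrank k (ch H g ⧸ mx H g (hx V H) ^ i) :=
  finrank_chart hV hH hf hg i le_rfl le_rfl (mx_pow_le_tr hf.mem hf.ne hx_le i)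
    (mx_pow_le_tr hg.mem hg.ne hx_le i)

theorem finrank_iSup_ix (hV : ZDim k V) (hH : H.FG) (hf : IsMin V H f) (hg : IsMin V H g) (i : ℕ)
    {E : ℕ → Submodule k K} (hE : ∀ i, E i ≤ H ^ i) :
    finrank k (ch H f ⧸ ((⨆ j, ix H f j (E j)) ⊔ mx H f (hx V H) ^ i)) =
      finrank k (ch H g ⧸ ((⨆ j, ix H g j (E j)) ⊔ mx H g (hx V H) ^ i)) :=
  finrank_chart hV hH hf hg i le_sup_right le_sup_right
    (sup_le ((iSup_ix_le_tr hf.mem hf.ne hE).trans (tr_mono le_sup_left))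
      ((mx_pow_le_tr hf.mem hf.ne hx_le i).trans (tr_mono le_sup_right)))
    (sup_le ((iSup_ix_le_tr hg.mem hg.ne hE).trans (tr_mono le_sup_left))
      ((mx_pow_le_tr hg.mem hg.ne hx_le i).trans (tr_mono le_sup_right)))

/-- `loc` does not depend on the chart. -/
theorem loc_chart {L W : Submodule k K} (hV : ZDim k V) (hH : (W * L).FG)
    (hf : IsMin V (W * L) f) (hg : IsMin V (W * L) g) (M N : ℕ) (τ q : K) (t : ℕ) :
    loc L W M N τ f q V t = loc L W M N τ g q V t := by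
  unfold loc bx tx
  rw [finrank_mx_pow hV hH hf hg]
  congr 1
  refine Finset.sum_congr rfl fun i _ => ?_
  congr 1
  · exact finrank_iSup_ix hV hH hf hg i (E := fun j => bi (W * L) (L ^ (M * j)) j q)
      fun j => inf_le_left
  · exact finrank_iSup_ix hV hH hf hg i (E := fun j => ti L N τ W j) fun j x hx => hx.1

/-- **RED does not depend on the chart.** -/
theorem red_chart (hV : ZDim k V) (hf : IsMin V H f) (hg : IsMin V H g) {Y : Submodule k K}
    (hY : Y ≤ hx V H) {r : ℕ}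
    (h : mx H f (hx V H) ^ (r + 1) ≤ mx H f Y * mx H f (hx V H) ^ r ⊔ mx H f (hx V H) ^ (r + 2)) :
    mx H g (hx V H) ^ (r + 1) ≤
      mx H g Y * mx H g (hx V H) ^ r ⊔ mx H g (hx V H) ^ (r + 2) := by
  have hYH : Y ≤ H ^ 1 := by
    rw [pow_one]
    exact hY.trans hx_le
  have hXr : hx V H ^ r ≤ H ^ r := pow_mono hx_le r
  have e : ∀ f : K, mx H f Y * mx H f (hx V H) ^ r = ix H f (1 + r) (Y * hx V H ^ r) := by
    intro f
    rw [mx_eq_ix, mx_pow _ hx_le, ix_mul_ix hYH hXr]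
  have hYX : Y * hx V H ^ r ≤ H ^ (1 + r) := by
    rw [pow_add]
    exact Submodule.mul_le.2 fun a ha b hb => Submodule.mul_mem_mul (hYH ha) (hXr hb)
  have hle : mx H f Y * mx H f (hx V H) ^ r ⊔ mx H f (hx V H) ^ (r + 2) ≤
      tr hf.mem hf.ne (mx H g Y * mx H g (hx V H) ^ r ⊔ mx H g (hx V H) ^ (r + 2)) := by
    refine sup_le ?_ ((mx_pow_le_tr hf.mem hf.ne hx_le _).trans (tr_mono le_sup_right))
    rw [e, e]
    exact (ix_le_tr hf.mem hf.ne hYX).trans (tr_mono le_sup_left)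
  have h1 : mx H g (hx V H) ^ (r + 1) = ix H g (r + 1) (hx V H ^ (r + 1)) := mx_pow _ hx_le _
  rw [h1]
  refine Ideal.span_le.2 ?_
  rintro b ⟨x, hx', hb⟩
  have hxH : x ∈ H ^ (r + 1) := pow_mono hx_le (r + 1) hx'
  have hxf : (⟨x / f ^ (r + 1), pow_div_mem_ch H f (r + 1) hxH⟩ : ch H f) ∈
      mx H f (hx V H) ^ (r + 1) := by
    rw [mx_pow _ hx_le]
    exact Ideal.subset_span ⟨x, hx', rfl⟩
  exact mem_of_tr hV hf hg (i := r + 2) le_sup_right hxH rfl (hle (h hxf)) hb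

end Pool.Agent.TGBC
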