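import Pool.Agent.Lib.TGBC_h29.G1Pt
import Pool.Agent.Lib.TGBC_h74.Alpha
import Pool.Agent.Lib.TGBC_h32.GL

/-!
# TANK G, the bridge: leading forms

At every point there is one tuple `g` such that the ideals `b_x(g)` and `t_x` contain elements
whose leading form in `u_l = g_{l+1} / g_0` contains a pure power of `u_{i₀}` of small degree.
-/

set_option autoImplicit false

namespace Pool.Agent.TGBC

open Filter Module
open Pool.Agent.TG (Ov ZDim IsMin ch)
open Pool.Agent.TG15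
open Pool.Agent.TGBC74 (T₀)
open Pool.Agent.TGBC32 (lin linS)

universe u

/-- `J` contains an element with leading form `α(u)` of degree `b < T`, with `X_{i₀}^b` in `α`. -/
def Lead (k : Type*) {R : Type*} [Field k] [CommRing R] [Algebra k R] {n : ℕ} (m J : Ideal R)
    (u : Fin n → R) (i₀ : Fin n) (T : ℕ) : Prop :=
  ∃ b < T, ∃ α : MvPolynomial (Fin n) k, α.IsHomogeneous b ∧
    MvPolynomial.coeff (Finsupp.single i₀ b) α ≠ 0 ∧
    ∃ a ∈ J, a - MvPolynomial.aeval u α ∈ m ^ (b + 1)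

variable {k K : Type u} [Field k] [Field K] [Algebra k K] {V : ValuationSubring K}
  {H : Submodule k K} {f g : K}

/-- **The good tuple at every point, with leading forms.** -/
def G1Al (k K : Type u) [Field k] [Field K] [Algebra k K] (n : ℕ) : Prop :=
  Infinite k → Algebra.trdeg k K = n → ∀ (i₀ : Fin n)
  (q : K [⋀^Fin (n + 1)]→ₗ[k] K) (L : Submodule k K), L.FG → 1 ∈ L →
    (∀ w : K, w ≠ 0 → ∃ g : Fin (n + 1) → K, (∀ j, g j ∈ (k ∙ w) * L) ∧ q g ≠ 0) → ∀ c' : ℕ,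
    (∀ (M : ℕ) (g : Fin (n + 1) → K), (∀ j, g j ∈ L ^ M) → q g ∈ L ^ ((n + 1) * M + c')) →
    ∀ (c_ : ℕ) (τ : K), τ ≠ 0 → τ ∈ L ^ c_ → ∀ m₀ : ℕ,
    ∃ m ≥ m₀, ∃ W ≤ L ^ m, W ≠ ⊥ ∧
    ∀ V : ValuationSubring K, ZDim k V → ∃ g : Fin (n + 1) → K,
      PtData q L W (m + 1) (c_ + m) τ V (T₀ n) g ∧
      ∃ hg : ∀ l : Fin n, g l.succ ∈ W * L,
        Lead k (mx (W * L) (g 0) (hx V (W * L))) (bx L (W * L) (m + 1) (g 0) (q g)) (uvec g hg) i₀
          (T₀ n) ∧
        Lead k (mx (W * L) (g 0) (hx V (W * L))) (tx L W (c_ + m) τ (g 0)) (uvec g hg) i₀ (T₀ n)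

theorem uvec_linS {n : ℕ} (A : Matrix (Fin n) (Fin n) k) (g : Fin (n + 1) → K)
    (hg : ∀ l : Fin n, g l.succ ∈ H) (hg' : ∀ l : Fin n, linS A g l.succ ∈ H) :
    uvec (linS A g) hg' = fun i => ∑ j, algebraMap k (ch H (g 0)) (A i j) * uvec g hg j := by
  funext i
  refine Subtype.ext ?_
  rw [uvec_coe, TGBC32.linS_div, TGBC32.lin_apply]
  have h1 : ((∑ j, algebraMap k (ch H (g 0)) (A i j) * uvec g hg j : ch H (g 0)) : K) =
      ∑ j, ((algebraMap k (ch H (g 0)) (A i j) * uvec g hg j : ch H (g 0)) : K) :=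
    AddSubmonoidClass.coe_finsetSum _ _
  rw [h1]
  refine Finset.sum_congr rfl fun j _ => ?_
  rw [Algebra.smul_def]
  rfl

theorem g1Al (k K : Type u) [Field k] [Field K] [Algebra k K] (n : ℕ) : G1Al k K n := by
  intro hinf htr i₀ q L hL h1L hw c' hq c_ τ hτ hτL m₀
  obtain ⟨m, hm, W, hWL, hW0, hW⟩ := g1Pt k K n hinf htr q L hL h1L hw c' hq c_ τ hτ hτL
    (T₀ n) (TGBC74.T₀_pos n) m₀
  refine ⟨m, hm, W, hWL, hW0, fun V hV => ?_⟩
  obtain ⟨g, hg⟩ := hW V hV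
  have hfdm : FiniteDimensional k (L ^ m : Submodule k K) := by
    have hfdL : FiniteDimensional k L := Module.Finite.iff_fg.2 hL
    exact ALB.finite_pow _ _
  have hWfd : FiniteDimensional k W := Submodule.finiteDimensional_of_le hWL
  have hHfg : (W * L).FG := (Module.Finite.iff_fg.1 hWfd).mul hL
  have hgH : ∀ l : Fin n, g l.succ ∈ W * L := fun l => hx_le (hg.mem l)
  set R := ch (W * L) (g 0) with hR
  set mm : Ideal R := mx (W * L) (g 0) (hx V (W * L)) with hmm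
  let J : Bool → Ideal R := fun l =>
    if l = true then bx L (W * L) (m + 1) (g 0) (q g) else tx L W (c_ + m) τ (g 0)
  have hu : ∀ l : Fin n, uvec g hgH l ∈ mm := fun l => Ideal.subset_span ⟨g l.succ, hg.mem l, rfl⟩
  have hfin : ∀ l i, Module.Finite k (R ⧸ (J l ⊔ mm ^ i)) := fun l i =>
    finite_quot hV hHfg hg.min i _ le_sup_right
  have hB : ∀ l, ∑ i ∈ Finset.range (T₀ n), finrank k (R ⧸ (J l ⊔ mm ^ i)) <
      (n + 7) * T₀ n ^ n := by
    intro l
    refine lt_of_le_of_lt ?_ hg.loc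
    rw [loc, Finset.sum_add_distrib]
    cases l
    · exact (Nat.le_add_left _ _).trans (Nat.le_add_left _ _)
    · exact (Nat.le_add_right _ _).trans (Nat.le_add_left _ _)
  obtain ⟨A, hA, hlead⟩ := TGBC74.exists_alpha_gl i₀ mm J (uvec g hgH) hu hfin hB
  have hmem' : ∀ l : Fin n, linS A g l.succ ∈ hx V (W * L) := by
    intro l
    rw [TGBC32.linS_succ]
    exact TGBC32.lin_mem A hg.mem l
  have hgH' : ∀ l : Fin n, linS A g l.succ ∈ W * L := fun l => hx_le (hmem' l)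
  have hspan : Submodule.span k (Set.range fun l : Fin n => linS A g l.succ) =
      Submodule.span k (Set.range fun l : Fin n => g l.succ) :=
    TGBC32.span_lin hA fun l : Fin n => g l.succ
  have hbx : ∀ f₀ : K, bx L (W * L) (m + 1) f₀ (q (linS A g)) = bx L (W * L) (m + 1) f₀ (q g) :=
    TGBC32.bx_linS q hA g L (W * L) (m + 1)
  refine ⟨linS A g, ⟨hg.min, hmem', TGBC32.alt_linS_ne hA hg.q0, ?_, hg.mult, ?_⟩, hgH', ?_, ?_⟩
  · rw [hspan]
    exact hg.red
  · have h1 := hg.loc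
    rw [loc] at h1 ⊢
    rw [TGBC32.linS_zero, hbx]
    exact h1
  · rw [hbx]
    obtain ⟨b, hb, α, hα, hα0, a, ha, hm⟩ := hlead true
    exact ⟨b, hb, α, hα, hα0, a, ha, by rw [uvec_linS A g hgH hgH']; exact hm⟩
  · obtain ⟨b, hb, α, hα, hα0, a, ha, hm⟩ := hlead false
    exact ⟨b, hb, α, hα, hα0, a, ha, by rw [uvec_linS A g hgH hgH']; exact hm⟩

end Pool.Agent.TGBC
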