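import Pool.Agent.Lib.TGBC_h29.Chart
import Pool.Agent.Lib.TG15.G1
import Pool.Agent.Lib.TG_h45.RedX2

/-!
# TANK G, the bridge: one good tuple at every point
-/

set_option autoImplicit false

namespace Pool.Agent.TGBC

open Filter Module
open Pool.Agent.TG (Ov ZDim IsMin ch)
open Pool.Agent.TG15

universe u

variable {k K : Type u} [Field k] [Field K] [Algebra k K] {V : ValuationSubring K}
  {H : Submodule k K} {f g : K}

/-- The ratios `g_{l+1} / g_0` as elements of the chart. -/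
def uvec {n : ℕ} {H : Submodule k K} (g : Fin (n + 1) → K) (hg : ∀ l : Fin n, g l.succ ∈ H)
    (l : Fin n) : ch H (g 0) := ⟨g l.succ / g 0, TG.div_mem_ch (hg l)⟩

theorem uvec_coe {n : ℕ} {H : Submodule k K} (g : Fin (n + 1) → K)
    (hg : ∀ l : Fin n, g l.succ ∈ H) (l : Fin n) : (uvec g hg l : K) = g l.succ / g 0 := rfl

theorem span_range_eq_mx {n : ℕ} {f : K} {y : Fin n → K} (u : Fin n → ch H f)
    (hu : ∀ l, (u l : K) = y l / f) :
    Ideal.span (Set.range u) = mx H f (Submodule.span k (Set.range y)) := by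
  refine le_antisymm (Ideal.span_le.2 ?_) (Ideal.span_le.2 ?_)
  · rintro _ ⟨l, rfl⟩
    exact Ideal.subset_span ⟨y l, Submodule.subset_span ⟨l, rfl⟩, hu l⟩
  · rintro a ⟨x, hx, ha⟩
    obtain ⟨c, rfl⟩ := (Submodule.mem_span_range_iff_exists_fun k).1 hx
    have h1 : a = ∑ l, algebraMap k (ch H f) (c l) * u l := by
      refine Subtype.ext ?_
      rw [AddSubmonoidClass.coe_finsetSum, ha, Finset.sum_div]
      refine Finset.sum_congr rfl fun l _ => ?_
      show c l • y l / f = algebraMap k K (c l) * (u l : K)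
      rw [hu, Algebra.smul_def, mul_div_assoc]
    rw [h1]
    exact Ideal.sum_mem _ fun l _ => Ideal.mul_mem_left _ _ (Ideal.subset_span ⟨l, rfl⟩)

/-- The good tuple `g` at the point. -/
structure PtData {n : ℕ} (q : (Fin (n + 1) → K) → K) (L W : Submodule k K) (M N : ℕ) (τ : K)
    (V : ValuationSubring K) (T : ℕ) (g : Fin (n + 1) → K) : Prop where
  min : IsMin V (W * L) (g 0)
  mem : ∀ l : Fin n, g l.succ ∈ hx V (W * L)
  q0 : q g ≠ 0
  red : ∃ r : ℕ, mx (W * L) (g 0) (hx V (W * L)) ^ (r + 1) ≤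
    mx (W * L) (g 0) (Submodule.span k (Set.range fun l : Fin n => g l.succ)) *
      mx (W * L) (g 0) (hx V (W * L)) ^ r ⊔ mx (W * L) (g 0) (hx V (W * L)) ^ (r + 2)
  mult : ∃ᶠ t in atTop,
    finrank k (ch (W * L) (g 0) ⧸ mx (W * L) (g 0) (hx V (W * L)) ^ t) < (n + 7) * t ^ n
  loc : loc L W M N τ (g 0) (q g) V T < (n + 7) * T ^ n

/-- **(G1) at every point**, with one tuple. -/
def G1Pt (k K : Type u) [Field k] [Field K] [Algebra k K] (n : ℕ) : Prop :=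
  Infinite k → Algebra.trdeg k K = n →
  ∀ (q : K [⋀^Fin (n + 1)]→ₗ[k] K) (L : Submodule k K), L.FG → 1 ∈ L →
    (∀ w : K, w ≠ 0 → ∃ g : Fin (n + 1) → K, (∀ j, g j ∈ (k ∙ w) * L) ∧ q g ≠ 0) → ∀ c' : ℕ,
    (∀ (M : ℕ) (g : Fin (n + 1) → K), (∀ j, g j ∈ L ^ M) → q g ∈ L ^ ((n + 1) * M + c')) →
    ∀ (c_ : ℕ) (τ : K), τ ≠ 0 → τ ∈ L ^ c_ → ∀ T : ℕ, 1 ≤ T → ∀ m₀ : ℕ,
    ∃ m ≥ m₀, ∃ W ≤ L ^ m, W ≠ ⊥ ∧
    ∀ V : ValuationSubring K, ZDim k V → ∃ g : Fin (n + 1) → K,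
      PtData q L W (m + 1) (c_ + m) τ V T g

theorem g1Pt (k K : Type u) [Field k] [Field K] [Algebra k K] (n : ℕ) : G1Pt k K n := by
  intro hinf htr q L hL h1L hw c' hq c_ τ hτ hτL T hT m₀
  obtain ⟨m, hm, W, hWL, hW0, hW⟩ := TG15.g1Fin k K n hinf htr q L hL h1L hw c' hq c_ τ hτ hτL
    T hT m₀
  refine ⟨m, hm, W, hWL, hW0, fun V hV => ?_⟩
  have hfdL : FiniteDimensional k L := Module.Finite.iff_fg.2 hL
  have hfdm : FiniteDimensional k (L ^ m : Submodule k K) := ALB.finite_pow _ _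
  have hWfd : FiniteDimensional k W := Submodule.finiteDimensional_of_le hWL
  have hWfg : W.FG := Module.Finite.iff_fg.1 hWfd
  have hHfg : (W * L).FG := hWfg.mul hL
  have hL0 : L ≠ ⊥ := by
    rintro rfl
    exact one_ne_zero (Submodule.mem_bot k |>.1 h1L)
  have hH0 : W * L ≠ ⊥ := (TG.IsModel.mul ⟨hWfg, hW0⟩ ⟨hL, hL0⟩).ne
  obtain ⟨f₀, hf₀⟩ := TG.exists_isMin (k := k) (V := V) hV.ov ⟨hHfg, hH0⟩
  obtain ⟨h, e, he⟩ : ∃ (h : ℕ) (e : Fin h → K), Submodule.span k (Set.range e) =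
      hx V (W * L) := by
    have hfd : FiniteDimensional k (W * L : Submodule k K) := Module.Finite.iff_fg.2 hHfg
    have : FiniteDimensional k (hx V (W * L)) := Submodule.finiteDimensional_of_le hx_le
    exact Submodule.fg_iff_exists_fin_generating_family.1 (Module.Finite.iff_fg.1 this)
  have heX : ∀ j, e j ∈ hx V (W * L) := fun j => he ▸ Submodule.subset_span ⟨j, rfl⟩
  obtain ⟨Φ₁, hΦ₁, h1⟩ := (hW V hV f₀ hf₀).2 h e he
  obtain ⟨Φ₂, hΦ₂, h2⟩ := TGX45.red_generic (n := n) htr.le hV hf₀ he fun j => hx_le (heX j)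
  obtain ⟨c, hc⟩ : ∃ c, MvPolynomial.eval c (Φ₁ * Φ₂) ≠ 0 := by
    by_contra hcon
    push Not at hcon
    exact mul_ne_zero hΦ₁ hΦ₂ (MvPolynomial.funext fun c => by rw [hcon c, map_zero])
  rw [map_mul] at hc
  obtain ⟨hq0, hloc⟩ := h1 c (left_ne_zero_of_mul hc)
  obtain ⟨r, hr⟩ := h2 c (right_ne_zero_of_mul hc)
  have hlin : ∀ l : Fin (n + 1), ∑ j, c (l, j) • e j ∈ hx V (W * L) := fun l =>
    Submodule.sum_mem _ fun j _ => Submodule.smul_mem _ _ (heX j)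
  have hmem : ∀ l : Fin n, tup f₀ e c l.succ ∈ hx V (W * L) := by
    intro l
    rw [tup, if_neg (Fin.succ_ne_zero l), zero_add]
    exact hlin _
  have hg0 : IsMin V (W * L) (tup f₀ e c 0) := by
    have h3 : tup f₀ e c 0 = f₀ + ∑ j, c (0, j) • e j := by
      rw [tup, if_pos rfl]
    rw [h3]
    refine hf₀.of_val (add_mem hf₀.mem (hx_le (hlin 0))) ?_
    rw [add_div, div_self hf₀.ne]
    rcases (gt_iff hf₀).1 (hlin 0).2 with h4 | h4
    · rw [h4, zero_div, add_zero, map_one]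
    · have h5 : V.valuation ((∑ j, c (0, j) • e j) / f₀) < 1 := by
        rw [map_div₀]
        exact (div_lt_one₀ (zero_lt_iff.2 ((Valuation.ne_zero_iff _).2 hf₀.ne))).2 h4
      rw [Valuation.map_add_eq_of_lt_left _ (by rwa [map_one]), map_one]
  refine ⟨tup f₀ e c, hg0, hmem, hq0, ⟨r, ?_⟩, ?_, ?_⟩
  · refine red_chart hV hf₀ hg0 ?_ ?_
    · rw [Submodule.span_le]
      rintro _ ⟨l, rfl⟩
      exact hmem l
    · have h3 := span_range_eq_mx (H := W * L) (f := f₀) (y := fun l : Fin n => tup f₀ e c l.succ)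
        (TGX45.uch (W * L) f₀ (fun j => hx_le (heX j)) c)
        (fun l => TGX45.uch_coe (fun j => hx_le (heX j)) c l)
      rw [h3] at hr
      exact hr
  · refine (hW V hV f₀ hf₀).1.mono fun t ht => ?_
    rwa [← finrank_mx_pow hV hHfg hf₀ hg0]
  · rwa [← loc_chart hV hHfg hf₀ hg0]

end Pool.Agent.TGBC
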