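import Pool.Agent.Lib.TGBC_h29.Theta
import Pool.Agent.Lib.TGJ.DivS

/-!
# TANK G, the bridge B → C: the divisors outside the boundary are good
-/

set_option autoImplicit false

namespace Pool.Agent.TGBC

open Filter Module
open Pool.Agent.TG (Ov ZDim IsMin ch chN NV RV Fin' IsModel ncl)
open Pool.Agent.TG15
open Pool.Agent.TGJ
open Pool.Agent.TG51 (IndV IndMod)
open Pool.Agent.TGh4 (Disc ordV)
open Pool.Agent.LU2 (locV)

universe u

variable {k K : Type u} [Field k] [Field K] [Algebra k K] {H : Submodule k K} {f : K}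

theorem exists_frac_chN (hfin : Fin' H) (hf0 : f ≠ 0) (x : K) :
    ∃ a ∈ chN H f, ∃ b ∈ chN H f, b ≠ 0 ∧ x = a / b := by
  obtain ⟨y, hy0, hy⟩ := (TG.Fin'.isAlgebraic hfin hf0 x).exists_integral_multiple
  have hy0' : (y : K) ≠ 0 := fun h => hy0 (Subtype.ext h)
  refine ⟨(y : K) * x, hy, y, TG.le_ncl _ y.2, hy0', ?_⟩
  field_simp

theorem isFractionRing_of_frac {A : Subalgebra k K}
    (h : ∀ x : K, ∃ a ∈ A, ∃ b ∈ A, b ≠ 0 ∧ x = a / b) : IsFractionRing A K := by
  refine IsFractionRing.of_field A K fun z => ?_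
  obtain ⟨a, ha, b, hb, _, e⟩ := h z
  exact ⟨⟨a, ha⟩, ⟨b, hb⟩, e⟩

/-- Independent residues in the chart. -/
theorem exists_indV_chart [PerfectField k] (hK : (⊤ : IntermediateField k K).FG) {n : ℕ}
    (htr : Algebra.trdeg k K = (n + 1 : ℕ)) (hH : H.FG) (hfin : Fin' H) (hf0 : f ≠ 0)
    {E : ValuationSubring K} (hE : IsDiv (chN H f) E) :
    ∃ t : Fin n → ch H f, IndV k E (fun i => (t i : K)) := by
  classical
  have hfg : (chN H f).FG :=
    TGD.ncl_fg hK (TG.ch_fg hH) fun a => TG.Fin'.isAlgebraic hfin hf0 a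
  have hft : Algebra.FiniteType k (chN H f) := (Subalgebra.fg_iff_finiteType _).1 hfg
  have hfr : IsFractionRing (chN H f) K := isFractionRing_of_frac (exists_frac_chN hfin hf0)
  have hle : ch H f ≤ chN H f := TG.le_ncl _
  let _ : Algebra (ch H f) (chN H f) := (Subalgebra.inclusion hle).toAlgebra
  have ht1 : IsScalarTower k (ch H f) (chN H f) := IsScalarTower.of_algebraMap_eq fun _ => rfl
  have ht2 : IsScalarTower (ch H f) (chN H f) K := IsScalarTower.of_algebraMap_eq fun _ => rfl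
  have hint : Algebra.IsIntegral (ch H f) (chN H f) := ⟨fun a => by
    have h1 : IsIntegral (ch H f) ((algebraMap (chN H f) K) a) := a.2
    exact (isIntegral_algebraMap_iff (IsFractionRing.injective (chN H f) K)).1 h1⟩
  -- the transcendence degree
  have htrA : ((n + 1 : ℕ) : Cardinal.{u}) ≤ Algebra.trdeg k (chN H f) := by
    have h1 := _root_.lift_trdeg_add_eq k (chN H f) K
    have h2 : Algebra.trdeg (chN H f) K = 0 := by
      have : Algebra.IsAlgebraic (chN H f) K :=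
        IsFractionRing.comap_isAlgebraic_iff.2 (inferInstance : Algebra.IsAlgebraic K K)
      exact _root_.trdeg_eq_zero
    rw [h2, Cardinal.lift_zero, add_zero, Cardinal.lift_id, Cardinal.lift_id] at h1
    rw [h1, htr]
  obtain ⟨t, ht⟩ := TG51.exists_indMod (k := k) (cen (chN H f) E) hE.height n htrA
  obtain ⟨t', ht'⟩ := TG51.exists_indMod_comap (R := ch H f) (cen (chN H f) E) ht
  refine ⟨t', fun Q hQ => ?_⟩
  have h1 : MvPolynomial.aeval t' Q ∉
      (cen (chN H f) E).comap (algebraMap (ch H f) (chN H f)) := fun h => hQ (ht' Q h)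
  rw [Ideal.mem_comap, hE.notMem_cen] at h1
  have e : MvPolynomial.aeval (fun i => (t' i : K)) Q =
      ((MvPolynomial.aeval t' Q : ch H f) : K) := by
    have : (MvPolynomial.aeval (fun i => (t' i : K)) : MvPolynomial (Fin n) k →ₐ[k] K) =
        (ch H f).val.comp (MvPolynomial.aeval t') := by
      ext i
      simp
    rw [this]
    rfl
  rw [e]
  exact h1

theorem pow_le_subalgebra {A : Subalgebra k K} {L : Submodule k K} (h : ∀ l ∈ L, l ∈ A) (s : ℕ) :
    ∀ x ∈ L ^ s, x ∈ A := by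
  induction s with
  | zero =>
    intro x hx
    rw [pow_zero] at hx
    obtain ⟨c, rfl⟩ := Submodule.mem_one.1 hx
    exact A.algebraMap_mem c
  | succ s ih =>
    intro x hx
    rw [pow_succ] at hx
    refine Submodule.mul_induction_on hx (fun a ha b hb => A.mul_mem (ih a ha) (h b hb))
      fun a b ha hb => A.add_mem ha hb

/-- **The divisors outside the boundary.**  `A` is a normal affine ring containing `L` with
`A ≤ k[L, 1 / τ]`; then `E` is a localisation of `A`. -/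
theorem good_div [PerfectField k] (hK : (⊤ : IntermediateField k K).FG) {n : ℕ}
    (htr : Algebra.trdeg k K = (n + 1 : ℕ)) {L W : Submodule k K} (hL : L.FG) (h1L : (1 : K) ∈ L)
    {e m : ℕ} {τ : K} (hτ : τ ∈ L ^ e) (hW : W ≤ L ^ m) (hWfg : W.FG)
    (hfin : Fin' (W * L)) {E : ValuationSubring K} (hE : E ∈ Divs k (W * L))
    (hT : ¬ Tp L (e + 1 + m) τ W E) :
    Disc E ∧ (∀ x ∈ L, x ∈ E) ∧ E.valuation τ = 1 ∧
    ∀ A : Subalgebra k K, IsNoetherianRing A → (∀ a : K, IsIntegral A a → a ∈ A) →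
      (∀ x : K, ∃ a ∈ A, ∃ b ∈ A, b ≠ 0 ∧ x = a / b) → (∀ l ∈ L, l ∈ A) → (∀ a ∈ A, a ∈ E) →
      IsDiv A E := by
  classical
  obtain ⟨V, hV, hEV⟩ := hE
  have hkE : Ov k E := fun c => hEV.le _ ((NV V (W * L)).algebraMap_mem c)
  obtain ⟨hLE, hτE, w, hw, hwE⟩ := TGBC50.good_of_not_Tp hkE hL h1L hτ hW hT
  refine ⟨hEV.disc, hLE, hτE, fun A hnoe hic hfr hLA hAE => ?_⟩
  have hHfg : (W * L).FG := hWfg.mul hL
  have hw0 : w ≠ 0 := by
    rintro rfl
    rw [map_zero] at hwE
    exact zero_ne_one hwE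
  have hH0 : W * L ≠ ⊥ := by
    intro h
    have h1 : w * 1 ∈ W * L := Submodule.mul_mem_mul hw h1L
    rw [h, Submodule.mem_bot, mul_one] at h1
    exact hw0 h1
  obtain ⟨f, hf⟩ := TG.exists_isMin (k := k) (V := V) hV.ov ⟨hHfg, hH0⟩
  have hfE : IsMin E (W * L) f := isMin_of_isDiv hf hEV
  have hHL : W * L ≤ L ^ (m + 1) := by
    rw [pow_succ]
    exact Submodule.mul_le.2 fun a ha b hb => Submodule.mul_mem_mul (hW ha) hb
  have hHA : ∀ h ∈ W * L, h ∈ A := fun h hh => pow_le_subalgebra hLA (m + 1) h (hHL hh)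
  have hEf : E.valuation f = 1 := by
    have h1 : E.valuation f ≤ 1 := (E.valuation_le_one_iff _).2 (hAE _ (hHA f hf.mem))
    refine le_antisymm h1 ?_
    have h2 := (E.valuation_le_one_iff _).2 (hfE.div (w * 1) (Submodule.mul_mem_mul hw h1L))
    rw [mul_one, map_div₀, hwE] at h2
    have h3 : E.valuation f ≠ 0 := (Valuation.ne_zero_iff _).2 hf.ne
    exact (div_le_one₀ (zero_lt_iff.2 h3)).1 h2
  obtain ⟨t, ht⟩ := exists_indV_chart hK htr hHfg hfin hf.ne (isDiv_chN hf hEV)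
  have hfrA : IsFractionRing A K := isFractionRing_of_frac hfr
  have hicA : IsIntegrallyClosed A := by
    rw [isIntegrallyClosed_iff K]
    intro x hx
    exact ⟨⟨x, hic x hx⟩, rfl⟩
  have hEt : E ≠ ⊤ := by
    rintro rfl
    obtain ⟨π, hπ⟩ := hEV.disc
    have h2 := hπ.lt
    have h3 : (⊤ : ValuationSubring K).valuation π⁻¹ ≤ 1 :=
      (ValuationSubring.valuation_le_one_iff _ _).2 trivial
    rw [map_inv₀] at h3
    exact absurd h2 (not_lt.2 ((inv_le_one₀ hπ.pos).1 h3))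
  obtain ⟨-, hloc⟩ := TG51.frac_of_indV (k := k) (A := A) (V := E) (fun a => hAE _ a.2) hEt
    (t := fun i => ((t i : ch (W * L) f) : K)) (fun i => by
      obtain ⟨s, h, hh, e⟩ := exists_num hf.mem hf.ne (t i)
      refine ⟨⟨h, ?_⟩, ⟨f ^ s, pow_mem (hHA f hf.mem) s⟩, ?_, ?_⟩
      · exact pow_le_subalgebra hHA s h hh
      · show E.valuation (f ^ s) = 1
        rw [map_pow, hEf, one_pow]
      · show ((t i : ch (W * L) f) : K) * f ^ s = h
        rw [e, div_mul_cancel₀ _ (pow_ne_zero _ hf.ne)]) ht (n := n + 1)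
    (by rw [htr]) le_rfl
  refine ⟨hAE, fun x hx => ?_, hEV.disc⟩
  obtain ⟨a, b, hb, hab⟩ := hloc x hx
  exact ⟨a, a.2, b, b.2, hb, hab⟩

/-- Derivations which preserve `A` preserve its prime divisors. -/
theorem der_of_isDiv {A : Subalgebra k K} {E : ValuationSubring K} (hE : IsDiv A E)
    (D : Derivation k K K) (hD : ∀ a ∈ A, D a ∈ A) {x : K} (hx : x ∈ E) : D x ∈ E := by
  have := TG51.deriv_mem_of_frac (k := k) (A := A) (V := E) (fun a => hE.le _ a.2)
    (fun x hx => by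
      obtain ⟨a, ha, b, hb, hb1, hab⟩ := hE.loc x hx
      exact ⟨⟨a, ha⟩, ⟨b, hb⟩, hb1, hab⟩) D (fun a => ⟨⟨D a, hD _ a.2⟩, rfl⟩) hx
  exact this

/-- A prime divisor is the localisation of the ring at its centre. -/
theorem mem_iff_locV {A : Subalgebra k K} {E : ValuationSubring K} (hE : IsDiv A E) (x : K) :
    x ∈ E ↔ x ∈ locV E A := by
  constructor
  · intro hx
    obtain ⟨a, ha, b, hb, hb1, hab⟩ := hE.loc x hx
    have hb0 : b ≠ 0 := by
      rintro rfl
      rw [map_zero] at hb1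
      exact zero_ne_one hb1
    exact ⟨a, ha, b, hb, hb1, by rw [← hab, mul_div_cancel_right₀ _ hb0]⟩
  · exact LU2.locV_mem hE.le x

end Pool.Agent.TGBC
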