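import Pool.Agent.Lib.TGBC_h29.AlphaAll
import Pool.Agent.Lib.TGBC_h30.Data
import Pool.Agent.Lib.TGBC_h95.Point
import Pool.Agent.Lib.TG_h68.Cl

/-!
# TANK G, the bridge B → C: assembly (J9)
-/

set_option autoImplicit false

namespace Pool.Agent.TGBC

open Filter Module
open Pool.Agent.TG (Ov ZDim IsMin ch NV RV Fin' IsModel Bir)
open Pool.Agent.TG15
open Pool.Agent.TGJ
open Pool.Agent.TGh4 (Disc ordV)
open Pool.Agent.TGBC74 (T₀)
open Pool.Agent.TGBC30 (BData B0 qmap)

universe u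

variable {k K : Type u} [Field k] [Field K] [Algebra k K]

theorem ch_le_NV {V : ValuationSubring K} {H : Submodule k K} {f : K} (hf : IsMin V H f) :
    ch H f ≤ NV V H :=
  ((TG.RV_eq hf ▸ LU2.le_locV _ : ch H f ≤ RV V H)).trans TG.RV_le_NV

/-- The inclusion of the chart in the normalised local ring. -/
def chToNV {V : ValuationSubring K} {H : Submodule k K} {f : K} (hf : IsMin V H f) :
    ch H f →ₐ[k] NV V H := Subalgebra.inclusion (ch_le_NV hf)

theorem chToNV_coe {V : ValuationSubring K} {H : Submodule k K} {f : K} (hf : IsMin V H f)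
    (a : ch H f) : ((chToNV hf a : NV V H) : K) = a := rfl

theorem mx_fg {H : Submodule k K} {f : K} {X : Submodule k K} (hX : X.FG) (hXH : X ≤ H) :
    (mx H f X).FG := by
  obtain ⟨h, e, he⟩ := Submodule.fg_iff_exists_fin_generating_family.1 hX
  have heX : ∀ j, e j ∈ H := fun j => hXH (he ▸ Submodule.subset_span ⟨j, rfl⟩)
  have h1 := span_range_eq_mx (H := H) (f := f) (y := e)
    (fun j => (⟨e j / f, TG.div_mem_ch (heX j)⟩ : ch H f)) fun j => rfl
  rw [he] at h1
  rw [← h1]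
  exact Submodule.fg_span (Set.finite_range _)

/-- The output of the bridge at all points of the model `W * L`. -/
def GoodW (k K : Type u) [Field k] [Field K] [Algebra k K] (n : ℕ) (L W : Submodule k K) (N : ℕ)
    (τ : K) (c₁ c₂ c₃ : ℕ) : Prop :=
  ∀ V : ValuationSubring K, ZDim k V → ∃ g : Fin (n + 2) → K, IsMin V (W * L) (g 0) ∧
    (∀ l : Fin (n + 1), g l.succ ∈ hx V (W * L)) ∧
    ∀ V' : ValuationSubring K, ZDim k V' → hx V' (W * L) = hx V (W * L) →
      ∀ res : NV V' (W * L) →ₐ[k] k, IsResOf V' res →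
      ∀ u : Fin (n + 1) → NV V' (W * L), (∀ l, (u l : K) = g l.succ / g 0) →
        PtOut res u {E | IsDiv (NV V' (W * L)) E ∧ Tp L N τ W E} c₁ c₂ c₃

/-- **The output at a point**, from `PtData` and the leading forms. -/
theorem ptOut_of [IsAlgClosed k] (hNPt : RowNPt k K) (hProper : RowProper k K)
    (hRho : RowRho k K) (hSep : RowSep k K) (hDiv : RowDiv k K) (hIR : RowIR k K)
    (hK : (⊤ : IntermediateField k K).FG) (p : ℕ) (hp : p.Prime) [CharP k p] {n : ℕ}
    (htr : Algebra.trdeg k K = (n + 1 : ℕ)) (hC : C₁ (n + 1) < p) {A₀ : Subalgebra k K}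
    {Z : Finset K} (B : BData (n + 1) A₀ Z) {m : ℕ} {W : Submodule k K} (hWL : W ≤ B.L ^ m)
    (hW0 : W ≠ ⊥) {V : ValuationSubring K} {g : Fin (n + 2) → K}
    (hg : PtData (qmap B.D (B.τ ^ (n + 1))) B.L W (m + 1) (B.e + 1 + m) B.τ V (T₀ (n + 1)) g)
    (hgH : ∀ l : Fin (n + 1), g l.succ ∈ W * B.L)
    (hJ : LeadA k (mx (W * B.L) (g 0) (hx V (W * B.L)))
      (bx B.L (W * B.L) (m + 1) (g 0) (qmap B.D (B.τ ^ (n + 1)) g)) (uvec g hgH) (T₀ (n + 1)))
    (hT : LeadA k (mx (W * B.L) (g 0) (hx V (W * B.L)))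
      (tx B.L W (B.e + 1 + m) B.τ (g 0)) (uvec g hgH) (T₀ (n + 1)))
    {V' : ValuationSubring K} (hV' : ZDim k V') (hVV : hx V' (W * B.L) = hx V (W * B.L))
    {res : NV V' (W * B.L) →ₐ[k] k} (hres : IsResOf V' res)
    {u : Fin (n + 1) → NV V' (W * B.L)} (hu : ∀ l, (u l : K) = g l.succ / g 0) :
    PtOut res u {E | IsDiv (NV V' (W * B.L)) E ∧ Tp B.L (B.e + 1 + m) B.τ W E} (C₁ (n + 1))
      (T₀ (n + 1) * (1 + C₁ (n + 1)) * C₁ (n + 1)) (T₀ (n + 1) * C₁ (n + 1)) := by
  -- the model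
  have hfdm : FiniteDimensional k (B.L ^ m : Submodule k K) := by
    have hfdL : FiniteDimensional k B.L := Module.Finite.iff_fg.2 B.L_fg
    exact ALB.finite_pow _ _
  have hWfd : FiniteDimensional k W := Submodule.finiteDimensional_of_le hWL
  have hWfg : W.FG := Module.Finite.iff_fg.1 hWfd
  have hL0 : B.L ≠ ⊥ := by
    intro h
    have h1 := B.one_mem
    rw [h, Submodule.mem_bot] at h1
    exact one_ne_zero h1
  have hH : IsModel (W * B.L) := TG.IsModel.mul ⟨hWfg, hW0⟩ ⟨B.L_fg, hL0⟩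
  have hbir : Bir (W * B.L) := TG9.Bir.mul hW0 B.bir
  have hfin : Fin' (W * B.L) := TG9.Bir.fin hbir
  -- transfer to `V'`
  have hmin : IsMin V' (W * B.L) (g 0) := TGBC95.isMin_of_hx_eq hVV hg.min
  have hmem : ∀ l : Fin (n + 1), g l.succ ∈ hx V' (W * B.L) := fun l => by
    rw [hVV]; exact hg.mem l
  have hred := hg.red
  have hmult := hg.mult
  rw [← hVV] at hred hJ hT hmult
  -- the point
  obtain ⟨res', hres', hnpt'⟩ := hNPt inferInstance hK (W * B.L) hH hfin V' hV'
  have hreseq : res' = res := by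
    refine AlgHom.ext fun s => ?_
    have h1 : res' (s - algebraMap k _ (res s)) = 0 := by
      refine (hres' _).2 ?_
      refine (hres _).1 ?_
      rw [map_sub, AlgHom.commutes]
      exact sub_self _
    rw [map_sub, AlgHom.commutes, sub_eq_zero] at h1
    exact h1
  have hnpt : NPt (NV V' (W * B.L)) res := hreseq ▸ hnpt'
  have hprop : Proper (NV V' (W * B.L)).val res u :=
    hProper inferInstance (n + 1) htr (W * B.L) hH hfin V' hV' res hres g hmin hmem hred u hu
  -- separability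
  have hg0 : g 0 ≠ 0 := hmin.ne
  have hjac : jac B.D (fun l : Fin (n + 1) => g l.succ / g 0) ≠ 0 := by
    have h1 := hg.q0
    rw [TGBC30.qmap_eq_jac _ _ _ hg0] at h1
    exact right_ne_zero_of_mul (right_ne_zero_of_mul h1)
  have hsep : Algebra.IsSeparable
      (IntermediateField.adjoin k (Set.range fun l => ((u l : NV V' (W * B.L)) : K))) K := by
    have h1 := hSep inferInstance hK (n + 1) htr B.D _ hjac
    have h2 : (fun l => ((u l : NV V' (W * B.L)) : K)) =
        fun l : Fin (n + 1) => g l.succ / g 0 := funext hu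
    rw [h2]
    exact h1
  have hrho : Rho (NV V' (W * B.L)).val res u ≤ C₁ (n + 1) :=
    hRho inferInstance hK (n + 1) htr (W * B.L) hH hbir V' hV' res hres g hmin hmem hred hmult u
      hu hsep
  -- the divisors
  have hdiv := hDiv inferInstance hK p hp inferInstance n htr hC B.L W B.e m B.τ
    (B.τ ^ (n + 1)) B.D B.L_fg B.one_mem B.τ_mem hWL hW0 hfin B.τ_ne ⟨_, rfl⟩
    (fun a ha => B.ncl_le ha) B.der
    (fun x => by
      haveI := B.frac
      obtain ⟨a, b, hb, hx⟩ := IsFractionRing.div_surjective (A := B0 B.L B.τ) x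
      exact ⟨a, a.2, b, b.2, fun h => nonZeroDivisors.ne_zero hb (Subtype.ext h), hx.symm⟩)
    V' hV' res hres hnpt g hmin hmem hg.q0 u hu hprop hrho
  -- the leading forms
  have huv : (fun l => chToNV hmin (uvec g hgH l)) = u := by
    funext l
    refine Subtype.ext ?_
    rw [chToNV_coe, uvec_coe, hu]
  have hXfg : (hx V' (W * B.L)).FG := by
    have hfd : FiniteDimensional k (W * B.L : Submodule k K) := Module.Finite.iff_fg.2 hH.fg
    have : FiniteDimensional k (hx V' (W * B.L)) := Submodule.finiteDimensional_of_le hx_le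
    exact Module.Finite.iff_fg.1 this
  have hval : ∀ y ∈ mx (W * B.L) (g 0) (hx V' (W * B.L)), V'.valuation (y : K) < 1 := by
    intro y hy
    refine Submodule.span_induction (R := ch (W * B.L) (g 0)) (M := ch (W * B.L) (g 0))
      (s := {a | ∃ h ∈ hx V' (W * B.L), (a : K) = h / g 0})
      (p := fun (a : ch (W * B.L) (g 0)) _ => V'.valuation (a : K) < 1) ?_ ?_ ?_ ?_ hy
    · rintro a ⟨x, hx', hxa⟩
      rw [hxa]
      exact TGBC95.hx_div_lt hmin hx'
    · show V'.valuation (0 : K) < 1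
      rw [map_zero]
      exact zero_lt_one
    · intro x y _ _ hx' hy'
      exact (V'.valuation.map_add _ _).trans_lt (max_lt hx' hy')
    · intro r x _ hx'
      show V'.valuation ((r : K) * (x : K)) < 1
      rw [map_mul]
      have h3 : V'.valuation (r : K) ≤ 1 :=
        (V'.valuation_le_one_iff _).2 (TG.ch_le hV'.ov hmin _ r.2)
      calc V'.valuation (r : K) * V'.valuation (x : K) ≤ 1 * V'.valuation (x : K) := by gcongr
        _ < 1 := by rw [one_mul]; exact hx'
  have hout := hIR inferInstance (NV V' (W * B.L)) res hnpt n htr (ch (W * B.L) (g 0))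
    (chToNV hmin) (fun a b hab => Subtype.ext (by
      have := congrArg (fun x : NV V' (W * B.L) => (x : K)) hab
      exact this))
    (mx (W * B.L) (g 0) (hx V' (W * B.L))) (mx_fg hXfg hx_le)
    (fun y hy => (hres _).2 (hval y hy)) (uvec g hgH)
    (by rw [huv]; exact hprop)
    (by
      rw [span_range_eq_mx (uvec g hgH) (y := fun l : Fin (n + 1) => g l.succ) fun l => rfl]
      exact hred)
    (fun l => Ideal.subset_span ⟨g l.succ, hmem l, rfl⟩)
    (T₀ (n + 1)) (C₁ (n + 1)) (by rw [huv]; exact hrho) _ _ hJ hT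
    {E | IsDiv (NV V' (W * B.L)) E ∧ Tp B.L (B.e + 1 + m) B.τ W E}
    (fun E hE => hE.1)
    (fun E hE hET a ha ha0 => by
      rw [huv]
      exact (hdiv E hE).1 (fun h => hET ⟨hE, h⟩) a ha ha0)
    (fun E hE => by
      rw [huv]
      exact ⟨((hdiv E hE.1).2 hE.2).1, fun a ha ha0 => ((hdiv E hE.1).2 hE.2).2 a ha ha0⟩)
  rw [huv] at hout
  exact hout

theorem j9 [IsAlgClosed k] (hNPt : RowNPt k K) (hProper : RowProper k K) (hRho : RowRho k K)
    (hSep : RowSep k K) (hDiv : RowDiv k K) (hIR : RowIR k K)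
    (hK : (⊤ : IntermediateField k K).FG) (p : ℕ) (hp : p.Prime) [CharP k p] {n : ℕ}
    (htr : Algebra.trdeg k K = (n + 1 : ℕ)) (hC : C₁ (n + 1) < p) {A₀ : Subalgebra k K}
    {Z : Finset K} (B : BData (n + 1) A₀ Z) (m₀ : ℕ) :
    ∃ m ≥ m₀, ∃ W ≤ B.L ^ m, W ≠ ⊥ ∧
      GoodW k K n B.L W (B.e + 1 + m) B.τ (C₁ (n + 1))
        (T₀ (n + 1) * (1 + C₁ (n + 1)) * C₁ (n + 1)) (T₀ (n + 1) * C₁ (n + 1)) := by
  have hinf : Infinite k := IsAlgClosed.instInfinite
  have hτL : B.τ ∈ B.L ^ (B.e + 1) :=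
    TGBC30.pow_le_pow_right B.one_mem (Nat.le_succ _) B.τ_mem
  obtain ⟨m, hm, W, hWL, hW0, hW⟩ := g1All k K (n + 1) hinf htr (qmap B.D (B.τ ^ (n + 1))) B.L
    B.L_fg B.one_mem B.q1 B.c' B.q2 (B.e + 1) B.τ B.τ_ne hτL m₀
  refine ⟨m, hm, W, hWL, hW0, fun V hV => ?_⟩
  obtain ⟨g, hg, hgH, hJ, hT⟩ := hW V hV
  refine ⟨g, hg.min, hg.mem, ?_⟩
  intro V' hV' hVV res hres u hu
  exact ptOut_of hNPt hProper hRho hSep hDiv hIR hK p hp htr hC B hWL hW0 hg hgH hJ hT hV' hVV
    hres hu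

end Pool.Agent.TGBC
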