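import Pool.Agent.Lib.TGJ.Iface
import Pool.Agent.Lib.TGBC_h29.G1Pt
import Pool.Agent.Lib.TGBC_h74.Alpha
import Pool.Agent.Lib.TG_h35.Wdet

/-!
# TANK G, the bridge B → C (J9 = R14): statements of the rows in the language of `TGJ.Iface`

`S = NV V H` (`H = W * L`), `res` its residue map, `g` the tuple of the point (`PtData`),
`u l = g (l + 1) / g 0`.
-/

set_option autoImplicit false

namespace Pool.Agent.TGBC

open Filter Module
open Pool.Agent.TG (Ov ZDim IsMin ch NV Fin' IsModel)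
open Pool.Agent.TG15
open Pool.Agent.TGJ
open Pool.Agent.TGh4 (Disc ordV)
open Pool.Agent.TGBC74 (T₀)

universe u

variable {k K : Type u} [Field k] [Field K] [Algebra k K]

/-- `res` is the residue map of `V` on `S`. -/
def IsResOf (V : ValuationSubring K) {S : Subalgebra k K} (res : S →ₐ[k] k) : Prop :=
  ∀ s : S, res s = 0 ↔ V.valuation (s : K) < 1

/-- `J` contains an element `a` with leading form `α(u)` of degree `b < T`, where all pure powers
`X_i ^ b` occur in `α`. -/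
def LeadA (k : Type*) {R : Type*} [Field k] [CommRing R] [Algebra k R] {n : ℕ} (m J : Ideal R)
    (u : Fin n → R) (T : ℕ) : Prop :=
  ∃ b < T, ∃ α : MvPolynomial (Fin n) k, α.IsHomogeneous b ∧
    (∀ i, MvPolynomial.coeff (Finsupp.single i b) α ≠ 0) ∧
    ∃ a ∈ J, a - MvPolynomial.aeval u α ∈ m ^ (b + 1)

/-- The constant `C₁`. -/
def C₁ (n : ℕ) : ℕ := (n + 7) * n.factorial

/-! ### Rows. `S` is `NV V H`, `u : Fin n → S` with `u l = g (l + 1) / g 0`. -/

/-- ROW NPT (helper95): the normalised local ring is a point. -/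
def RowNPt (k K : Type u) [Field k] [Field K] [Algebra k K] : Prop :=
  IsAlgClosed k → (⊤ : IntermediateField k K).FG → ∀ H : Submodule k K, IsModel H → Fin' H →
    ∀ V : ValuationSubring K, ZDim k V → ∃ res : NV V H →ₐ[k] k, IsResOf V res ∧ NPt (NV V H) res

/-- ROW PROPER (helper95): `u` is a system of parameters of `S`. -/
def RowProper (k K : Type u) [Field k] [Field K] [Algebra k K] : Prop :=
  IsAlgClosed k → ∀ n : ℕ, Algebra.trdeg k K = n → ∀ H : Submodule k K, IsModel H → Fin' H →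
    ∀ V : ValuationSubring K, ZDim k V → ∀ res : NV V H →ₐ[k] k, IsResOf V res →
    ∀ g : Fin (n + 1) → K, IsMin V H (g 0) → (∀ l : Fin n, g l.succ ∈ hx V H) →
      (∃ r : ℕ, mx H (g 0) (hx V H) ^ (r + 1) ≤
        mx H (g 0) (Submodule.span k (Set.range fun l : Fin n => g l.succ)) *
          mx H (g 0) (hx V H) ^ r ⊔ mx H (g 0) (hx V H) ^ (r + 2)) →
      ∀ u : Fin n → NV V H, (∀ l, (u l : K) = g l.succ / g 0) → Proper (NV V H).val res u

/-- ROW RHO (helper14): the local degree of `u`. -/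
def RowRho (k K : Type u) [Field k] [Field K] [Algebra k K] : Prop :=
  IsAlgClosed k → (⊤ : IntermediateField k K).FG → ∀ n : ℕ, Algebra.trdeg k K = n →
    ∀ H : Submodule k K, IsModel H → TG.Bir H →
    ∀ V : ValuationSubring K, ZDim k V → ∀ res : NV V H →ₐ[k] k, IsResOf V res →
    ∀ g : Fin (n + 1) → K, IsMin V H (g 0) → (∀ l : Fin n, g l.succ ∈ hx V H) →
      (∃ r : ℕ, mx H (g 0) (hx V H) ^ (r + 1) ≤
        mx H (g 0) (Submodule.span k (Set.range fun l : Fin n => g l.succ)) *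
          mx H (g 0) (hx V H) ^ r ⊔ mx H (g 0) (hx V H) ^ (r + 2)) →
      (∃ᶠ t in atTop, finrank k (ch H (g 0) ⧸ mx H (g 0) (hx V H) ^ t) < (n + 7) * t ^ n) →
      ∀ u : Fin n → NV V H, (∀ l, (u l : K) = g l.succ / g 0) →
        Algebra.IsSeparable (IntermediateField.adjoin k (Set.range fun l => (u l : K))) K →
        Rho (NV V H).val res u ≤ C₁ n

/-- ROW SEP (helper45): derivations with non-zero Jacobian determinant give separability. -/
def RowSep (k K : Type u) [Field k] [Field K] [Algebra k K] : Prop :=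
  PerfectField k → (⊤ : IntermediateField k K).FG → ∀ n : ℕ, Algebra.trdeg k K = n →
    ∀ (D : Fin n → Derivation k K K) (f : Fin n → K), jac D f ≠ 0 →
      Algebra.IsSeparable (IntermediateField.adjoin k (Set.range f)) K

/-- ROW LEAD (helper33): multiplicities of an element with a leading form.  `R → S` a ring with an
ideal `m` mapping into the maximal ideal. -/
def RowLead (k K : Type u) [Field k] [Field K] [Algebra k K] : Prop :=
  IsAlgClosed k → ∀ (S : Subalgebra k K) (res : S →ₐ[k] k), NPt S res →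
    ∀ n : ℕ, Algebra.trdeg k K = (n + 1 : ℕ) →
    ∀ (R : Type u) [CommRing R] [Algebra k R] (φ : R →ₐ[k] S) (m : Ideal R), m.FG →
      (∀ y ∈ m, res (φ y) = 0) → ∀ u : Fin (n + 1) → R, Proper S.val res (fun l => φ (u l)) →
      (∃ r : ℕ, m ^ (r + 1) ≤ Ideal.span (Set.range u) * m ^ r ⊔ m ^ (r + 2)) →
      (∀ l, u l ∈ m) →
      ∀ (i : Fin (n + 1)) (b j : ℕ), 0 < b → b < j → ∀ α : MvPolynomial (Fin (n + 1)) k,
        α.IsHomogeneous b → MvPolynomial.coeff (Finsupp.single i b) α ≠ 0 →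
        ∀ a : R, a - MvPolynomial.aeval u α ∈ m ^ j →
          Proper S.val res (Fin.cons (φ a) (fun l => φ (u (i.succAbove l))) : Fin (n + 1) → S) ∧
          Rho S.val res (Fin.cons (φ a) (fun l => φ (u (i.succAbove l))) : Fin (n + 1) → S) =
            b * Rho S.val res (fun l => φ (u l))

/-- ROW DIV (helper50, helper90, helper51): `ord_E(R_u)` is bounded by the elements of `b_x(g)`
and `t_x`.  The data `L, τ, D, q` are those of BC11. -/
def RowDiv (k K : Type u) [Field k] [Field K] [Algebra k K] : Prop :=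
  IsAlgClosed k → (⊤ : IntermediateField k K).FG → ∀ (p : ℕ), p.Prime → CharP k p →
  ∀ n : ℕ, Algebra.trdeg k K = (n + 1 : ℕ) → C₁ (n + 1) < p →
  ∀ (L W : Submodule k K) (c m : ℕ) (τ τ' : K) (D : Fin (n + 1) → Derivation k K K), L.FG →
    1 ∈ L → τ ∈ L ^ c → W ≤ L ^ m → W ≠ ⊥ → Fin' (W * L) →
    τ ≠ 0 → (∃ N : ℕ, τ' = τ ^ N) →
    (∀ a : K, IsIntegral (Algebra.adjoin k ((L : Set K) ∪ {τ⁻¹})) a →
      a ∈ Algebra.adjoin k ((L : Set K) ∪ {τ⁻¹})) →
    (∀ i, ∀ a ∈ Algebra.adjoin k ((L : Set K) ∪ {τ⁻¹}),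
      D i a ∈ Algebra.adjoin k ((L : Set K) ∪ {τ⁻¹})) →
    (∀ x : K, ∃ a ∈ Algebra.adjoin k ((L : Set K) ∪ {τ⁻¹}),
      ∃ b ∈ Algebra.adjoin k ((L : Set K) ∪ {τ⁻¹}), b ≠ 0 ∧ x = a / b) →
    ∀ V : ValuationSubring K, ZDim k V → ∀ res : NV V (W * L) →ₐ[k] k, IsResOf V res →
    NPt (NV V (W * L)) res →
    ∀ g : Fin (n + 2) → K, IsMin V (W * L) (g 0) →
      (∀ l : Fin (n + 1), g l.succ ∈ hx V (W * L)) → τ' * TG.Wd D g ≠ 0 →
      ∀ u : Fin (n + 1) → NV V (W * L), (∀ l, (u l : K) = g l.succ / g 0) →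
      Proper (NV V (W * L)).val res u → Rho (NV V (W * L)).val res u ≤ C₁ (n + 1) →
      ∀ E, IsDiv (NV V (W * L)) E →
        (¬ Tp L (c + 1 + m) τ W E →
          ∀ a ∈ bx L (W * L) (m + 1) (g 0) (τ' * TG.Wd D g), (a : K) ≠ 0 →
            (ramV E u : ℤ) ≤ ordV E (a : K)) ∧
        (Tp L (c + 1 + m) τ W E → ramV E u < C₁ (n + 1) ∧
          ∀ a ∈ tx L W (c + 1 + m) τ (g 0), (a : K) ≠ 0 → 1 ≤ ordV E (a : K))

/-- The output at a point: the hypotheses of `ThmC`. -/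
structure PtOut {S : Subalgebra k K} (res : S →ₐ[k] k) {n : ℕ} (u : Fin (n + 1) → S)
    (Θ : Set (ValuationSubring K)) (c₁ c₂ c₃ : ℕ) : Prop where
  npt : NPt S res
  proper : Proper S.val res u
  rho : Rho S.val res u ≤ c₁
  properR : ProperR S res (u ∘ Fin.succ) u
  ir : IR S res (u ∘ Fin.succ) u ≤ c₂
  fin : Θ.Finite
  div : ∀ V ∈ Θ, IsDiv S V
  rhoΘ : ∀ V ∈ Θ, ProperV S V res (u ∘ Fin.castSucc) ∧ RhoV S V res (u ∘ Fin.castSucc) ≤ c₃

/-- ROW IR (helper49): from F1, the elements `a_J`, `a_T` and RowLead to the output. -/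
def RowIR (k K : Type u) [Field k] [Field K] [Algebra k K] : Prop :=
  IsAlgClosed k → ∀ (S : Subalgebra k K) (res : S →ₐ[k] k), NPt S res →
    ∀ n : ℕ, Algebra.trdeg k K = (n + 1 : ℕ) →
    ∀ (R : Type u) [CommRing R] [Algebra k R] (φ : R →ₐ[k] S), Function.Injective φ →
    ∀ (m : Ideal R), m.FG →
      (∀ y ∈ m, res (φ y) = 0) → ∀ u : Fin (n + 1) → R, Proper S.val res (fun l => φ (u l)) →
      (∃ r : ℕ, m ^ (r + 1) ≤ Ideal.span (Set.range u) * m ^ r ⊔ m ^ (r + 2)) →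
      (∀ l, u l ∈ m) →
      ∀ (T c₁ : ℕ), Rho S.val res (fun l => φ (u l)) ≤ c₁ →
      ∀ (J J' : Ideal R), LeadA k m J u T → LeadA k m J' u T → ∀ Θ : Set (ValuationSubring K),
      (∀ V ∈ Θ, IsDiv S V) →
      (∀ V, IsDiv S V → V ∉ Θ → ∀ a ∈ J, ((φ a : S) : K) ≠ 0 →
        (ramV V (fun l => φ (u l)) : ℤ) ≤ ordV V ((φ a : S) : K)) →
      (∀ V ∈ Θ, ramV V (fun l => φ (u l)) < c₁ ∧ ∀ a ∈ J', ((φ a : S) : K) ≠ 0 →
        1 ≤ ordV V ((φ a : S) : K)) →
      PtOut res (fun l => φ (u l)) Θ c₁ (T * (1 + c₁) * c₁) (T * c₁)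

end Pool.Agent.TGBC
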