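import Pool.Agent.Lib.TGBC_h29.J9
import Pool.Agent.Lib.TGJ.ResCorr
import Pool.Agent.Lib.TGJ_h11.ExD4
import Pool.Agent.Lib.TGJ_h49.RhoPos
import Pool.Agent.Lib.TGBC_h95.RowPt
import Pool.Agent.Lib.TG_h14.RowRho
import Pool.Agent.Lib.TG_h45.RowSep
import Pool.Agent.Lib.TG_h33.RowLead
import Pool.Agent.Lib.TGBC_h49.RowIR
import Pool.Agent.Lib.TGBC_h50.RowDiv

/-!
# TANK G, the bridge B → C: all rows instantiated
-/

set_option autoImplicit false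

namespace Pool.Agent.TGBC

open Pool.Agent.TG (Ov ZDim IsMin ch NV RV Fin' IsModel Bir)
open Pool.Agent.TG15
open Pool.Agent.TGJ
open Pool.Agent.TGBC74 (T₀)
open Pool.Agent.TGBC30 (BData B0 qmap)

universe u

variable {k K : Type u} [Field k] [Field K] [Algebra k K]

/-- **The output at a point**, all rows instantiated. -/
theorem ptOut_of' [IsAlgClosed k] (hF1 : F1 k K) (hF2 : F2 k K)
    (hK : (⊤ : IntermediateField k K).FG) (p : ℕ) (hp : p.Prime) [CharP k p] {n : ℕ}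
    (htr : Algebra.trdeg k K = (n + 1 : ℕ)) (hC : C₁ (n + 1) < p) {A₀ : Subalgebra k K}
    {Z : Finset K} (B : BData (n + 1) A₀ Z) {m : ℕ} {W : Submodule k K} (hWL : W ≤ B.L ^ m)
    (hW0 : W ≠ ⊥) {V : ValuationSubring K} {g : Fin (n + 2) → K}
    (hg : PtData (qmap B.D (B.τ ^ (n + 1))) B.L W (m + 1) (B.e + 1 + m) B.τ V (T₀ (n + 1)) g)
    (hgH : ∀ l : Fin (n + 1), g l.succ ∈ W * B.L)
    (hJ : LeadA k (mx (W * B.L) (g 0) (hx V (W * B.L)))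
      (bx B.L (W * B.L) (m + 1) (g 0) (qmap B.D (B.τ ^ (n + 1)) g)) (uvec g hgH) (T₀ (n + 1)))
    (hT : LeadA k (mx (W * B.L) (g 0) (hx V (W * B.L)))
      (tx B.L W (B.e + 1 + m) B.τ (g 0)) (uvec g hgH) (T₀ (n + 1)))
    {V' : ValuationSubring K} (hV' : ZDim k V') (hVV : hx V' (W * B.L) = hx V (W * B.L))
    {res : NV V' (W * B.L) →ₐ[k] k} (hres : IsResOf V' res)
    {u : Fin (n + 1) → NV V' (W * B.L)} (hu : ∀ l, (u l : K) = g l.succ / g 0) :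
    PtOut res u {E | IsDiv (NV V' (W * B.L)) E ∧ Tp B.L (B.e + 1 + m) B.τ W E} (C₁ (n + 1))
      (T₀ (n + 1) * (1 + C₁ (n + 1)) * C₁ (n + 1)) (T₀ (n + 1) * C₁ (n + 1)) :=
  ptOut_of (TGBC95.rowNPt k K) (TGBC95.rowProper k K) TGh14.rowRho' rowSep
    (TGBC50.rowDiv inR4 rowSep)
    (TGBC49.rowIR' hF1 (TGh33.rowLead hF2 (perm k))) hK p hp htr hC B hWL hW0 hg hgH
    hJ hT hV' hVV hres hu

/-- **J9**, all rows instantiated. -/
theorem j9' [IsAlgClosed k] (hF1 : F1 k K) (hF2 : F2 k K)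
    (hK : (⊤ : IntermediateField k K).FG) (p : ℕ) (hp : p.Prime) [CharP k p] {n : ℕ}
    (htr : Algebra.trdeg k K = (n + 1 : ℕ)) (hC : C₁ (n + 1) < p) {A₀ : Subalgebra k K}
    {Z : Finset K} (B : BData (n + 1) A₀ Z) (m₀ : ℕ) :
    ∃ m ≥ m₀, ∃ W ≤ B.L ^ m, W ≠ ⊥ ∧
      GoodW k K n B.L W (B.e + 1 + m) B.τ (C₁ (n + 1))
        (T₀ (n + 1) * (1 + C₁ (n + 1)) * C₁ (n + 1)) (T₀ (n + 1) * C₁ (n + 1)) :=
  j9 (TGBC95.rowNPt k K) (TGBC95.rowProper k K) TGh14.rowRho' rowSep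
    (TGBC50.rowDiv inR4 rowSep)
    (TGBC49.rowIR' hF1 (TGh33.rowLead hF2 (perm k))) hK p hp htr hC B m₀

end Pool.Agent.TGBC
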