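import Pool.Agent.Lib.TGBC_h29.J9All
import Pool.Agent.Lib.TG_h35.J9free
import Pool.Agent.Lib.TGJ_h25.TopDefs
import Pool.Agent.Lib.TG_h82.F1

/-!
# TANK G, the row J9 of the assembly (`TGTop.RowJ9`)
-/

set_option autoImplicit false

namespace Pool.Agent.TGBC

open Pool.Agent.TG (ZDim IsMin NV Fin' IsModel Bir)
open Pool.Agent.TG15
open Pool.Agent.TGJ
open Pool.Agent.TGBC74 (T₀)
open Pool.Agent.TGBC30 (BData)

universe u

variable {k K : Type u} [Field k] [Field K] [Algebra k K]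

/-- **ROW J9** of the assembly, from F2. -/
theorem rowJ9_of (hF2 : F2 k K) : TGTop.RowJ9 k K := by
  intro halg hK p hp hcp m htr hC A₀ Z d
  obtain ⟨mW, -, W, hWL, hW0, h⟩ := j9free (TGBC95.rowNPt k K) (TGBC95.rowProper k K)
    TGh14.rowRho' rowSep (TGBC50.rowDiv inR4 rowSep)
    (TGBC49.rowIR' (f1 k K) (TGh33.rowLead hF2 (perm k))) hK p hp htr hC d 0
  refine ⟨mW, W, hWL, hW0, TG9.Bir.fin ?_, h⟩
  obtain ⟨w, hw, hw0⟩ := (Submodule.ne_bot_iff _).1 hW0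
  have hL := d.bir
  unfold TG.Bir at hL ⊢
  rw [eq_top_iff, ← hL, IntermediateField.adjoin_le_iff]
  rintro _ ⟨f, hf, g, hg, rfl⟩
  refine IntermediateField.subset_adjoin _ _ ⟨w * f, Submodule.mul_mem_mul hw hf, w * g,
    Submodule.mul_mem_mul hw hg, ?_⟩
  rw [mul_div_mul_left _ _ hw0]

end Pool.Agent.TGBC
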