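import Pool.Agent.Lib.TGBC_h29.Rows
import Pool.Agent.Lib.TGBC_h49.BC6
import Pool.Agent.Lib.TGBC_h50.Good
import Pool.Agent.Lib.TG_h3.A0
import Pool.Agent.Lib.TG.A5
import Pool.Agent.Lib.TG_h51.FracV
import Pool.Agent.Lib.TGBC_h95.Point
import Pool.Agent.Lib.TG_h68.Cl

/-!
# TANK G, the bridge B → C: the boundary `Θ` is finite, the divisors outside the boundary are good
-/

set_option autoImplicit false

namespace Pool.Agent.TGBC

open Filter Module
open Pool.Agent.TG (Ov ZDim IsMin ch chN NV RV Fin' IsModel ncl)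
open Pool.Agent.TG15
open Pool.Agent.TGJ
open Pool.Agent.TGh4 (Disc ordV)
open Pool.Agent.LU2 (locV)

universe u

variable {k K : Type u} [Field k] [Field K] [Algebra k K]

/-- Finitely many prime divisors of a noetherian ring contain a given nonzero element. -/
theorem finite_isDiv {A : Subalgebra k K} (hA : IsNoetherianRing A) {s : A} (hs : (s : K) ≠ 0) :
    {E : ValuationSubring K | IsDiv A E ∧ s ∈ cen A E}.Finite := by
  refine Set.Finite.of_finite_image (f := fun E => cen A E)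
    ((Ideal.finite_minimalPrimes_of_isNoetherianRing A (Ideal.span {s})).subset ?_) ?_
  · rintro _ ⟨E, ⟨hE, hsE⟩, rfl⟩
    exact TGBC49.cen_minimal hE hs hsE
  · rintro E ⟨hE, _⟩ E' ⟨hE', _⟩ h
    exact TGBC49.cen_inj hE hE' h

/-- A divisor through a point of the normalised model is a divisor of the normalised chart. -/
theorem isDiv_chN {V : ValuationSubring K} {H : Submodule k K} {f : K} (hf : IsMin V H f)
    {E : ValuationSubring K} (hE : IsDiv (NV V H) E) : IsDiv (chN H f) E := by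
  have hNV : NV V H = locV V (chN H f) := TG.NV_eq hf
  have hle : chN H f ≤ NV V H := hNV ▸ LU2.le_locV _
  have hunit : ∀ b ∈ chN H f, V.valuation b = 1 → E.valuation b = 1 := by
    intro b hb hVb
    have hb0 : b ≠ 0 := by
      rintro rfl
      rw [map_zero] at hVb
      exact zero_ne_one hVb
    have h1 : b⁻¹ ∈ E := hE.le _ (hNV ▸ LU2.locV_inv (LU2.le_locV _ hb) hVb)
    have h2 : b ∈ E := hE.le _ (hle hb)
    exact TG.val_eq_one_of_mem_inv hb0 h2 h1
  refine ⟨fun a ha => hE.le a (hle ha), fun x hx => ?_, hE.disc⟩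
  obtain ⟨a, ha, b, hb, hEb, hab⟩ := hE.loc x hx
  rw [hNV] at ha hb
  obtain ⟨a₁, ha₁, a₂, ha₂, hva, rfl⟩ := ha
  obtain ⟨b₁, hb₁, b₂, hb₂, hvb, rfl⟩ := hb
  have hEa₂ := hunit a₂ ha₂ hva
  have hEb₂ := hunit b₂ hb₂ hvb
  have hEb₁ : E.valuation b₁ = 1 := by
    rw [map_div₀, hEb₂, div_one] at hEb
    exact hEb
  have ha₂0 : a₂ ≠ 0 := by
    rintro rfl
    rw [map_zero] at hEa₂
    exact zero_ne_one hEa₂
  have hb₂0 : b₂ ≠ 0 := by
    rintro rfl
    rw [map_zero] at hEb₂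
    exact zero_ne_one hEb₂
  refine ⟨a₁ * b₂, mul_mem ha₁ hb₂, b₁ * a₂, mul_mem hb₁ ha₂, by rw [map_mul, hEb₁, hEa₂, one_mul],
    ?_⟩
  field_simp at hab
  linear_combination hab

/-- Minimality for a divisor through the point. -/
theorem isMin_of_isDiv {V : ValuationSubring K} {H : Submodule k K} {f : K} (hf : IsMin V H f)
    {E : ValuationSubring K} (hE : IsDiv (NV V H) E) : IsMin E H f :=
  ⟨hf.mem, hf.ne, fun g hg => hE.le _ (TG.RV_le_NV (TG.div_mem_RV hf hg))⟩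

/-- The set of the prime divisors of the normalisation of the model `H`. -/
def Divs (k : Type u) {K : Type u} [Field k] [Field K] [Algebra k K] (H : Submodule k K) :
    Set (ValuationSubring K) := {E | ∃ V, ZDim k V ∧ IsDiv (NV V H) E}

/-- **The boundary is finite.** -/
theorem theta_finite [PerfectField k] (hK : (⊤ : IntermediateField k K).FG)
    {L W : Submodule k K} (hL : L.FG) (h1L : (1 : K) ∈ L) {e m : ℕ} {τ : K} (hτ0 : τ ≠ 0)
    (hτ : τ ∈ L ^ e) (hW : W ≤ L ^ m) (hWfg : W.FG) (hW0 : W ≠ ⊥) (hfin : Fin' (W * L)) :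
    {E | E ∈ Divs k (W * L) ∧ Tp L (e + 1 + m) τ W E}.Finite := by
  classical
  obtain ⟨SW, hSW⟩ := hWfg
  obtain ⟨SL, hSL⟩ := hL
  have hL0 : L ≠ ⊥ := by
    rintro rfl
    exact one_ne_zero ((Submodule.mem_bot k).1 h1L)
  have hspan : Submodule.span k (((SW ×ˢ SL).image fun p : K × K => p.1 * p.2 : Finset K) :
      Set K) = W * L := by
    rw [← hSW, ← hSL, Submodule.span_mul_span]
    congr 1
    ext x
    rw [Finset.coe_image, Finset.coe_product, Set.mem_mul, Set.mem_image]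
    constructor
    · rintro ⟨⟨a, b⟩, ⟨ha, hb⟩, rfl⟩
      exact ⟨a, ha, b, hb, rfl⟩
    · rintro ⟨a, ha, b, hb, rfl⟩
      exact ⟨⟨a, b⟩, ⟨ha, hb⟩, rfl⟩
  have hHfg : (W * L).FG := ⟨_, hspan⟩
  -- the chart of the product `w l`
  let s : K × K → K := fun p => τ * p.1 / p.2 ^ (e + 1 + m)
  have hsub : {E | E ∈ Divs k (W * L) ∧ Tp L (e + 1 + m) τ W E} ⊆
      ⋃ p ∈ (SW ×ˢ SL : Finset (K × K)), {E : ValuationSubring K |
        IsDiv (chN (W * L) (p.1 * p.2)) E ∧ p.1 * p.2 ≠ 0 ∧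
          ∃ hs : s p ∈ chN (W * L) (p.1 * p.2), (⟨s p, hs⟩ : chN (W * L) (p.1 * p.2)) ∈
            cen (chN (W * L) (p.1 * p.2)) E ∧ s p ≠ 0} := by
    rintro E ⟨⟨V, hV, hE⟩, hT⟩
    obtain ⟨f, hfS, hf⟩ := TG.exists_isMin_mem (V := V) hV.ov
      ((SW ×ˢ SL).image fun p : K × K => p.1 * p.2) (by
        by_contra hcon
        push Not at hcon
        refine (TG.IsModel.mul ⟨⟨SW, hSW⟩, hW0⟩ ⟨⟨SL, hSL⟩, hL0⟩).ne ?_
        rw [← hspan, Submodule.span_eq_bot]
        exact fun x hx => hcon x hx)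
    rw [hspan] at hf
    obtain ⟨p, hp, rfl⟩ := Finset.mem_image.1 hfS
    rw [Finset.mem_product] at hp
    have hp1 : p.1 ∈ W := hSW ▸ Submodule.subset_span hp.1
    have hp2 : p.2 ∈ L := hSL ▸ Submodule.subset_span hp.2
    have h10 : p.1 ≠ 0 := left_ne_zero_of_mul hf.ne
    have h20 : p.2 ≠ 0 := right_ne_zero_of_mul hf.ne
    have hfE : IsMin E (W * L) (p.1 * p.2) := isMin_of_isDiv hf hE
    have hlE : IsMin E L p.2 := by
      refine ⟨hp2, h20, fun l hl => ?_⟩
      have h1 := hfE.div (p.1 * l) (Submodule.mul_mem_mul hp1 hl)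
      rwa [mul_div_mul_left _ _ h10] at h1
    have hchL : ch L p.2 ≤ ch (W * L) (p.1 * p.2) := by
      refine TG.ch_le_iff.2 fun l hl => ?_
      have h1 : l / p.2 = p.1 * l / (p.1 * p.2) := by rw [mul_div_mul_left _ _ h10]
      rw [h1]
      exact TG.div_mem_ch (Submodule.mul_mem_mul hp1 hl)
    have hsch : s p ∈ chN (W * L) (p.1 * p.2) := by
      refine TG.le_ncl _ (hchL ?_)
      refine pow_div_mem_ch L p.2 (e + 1 + m) ?_
      have h1 : τ * p.1 ∈ L ^ (e + m) := by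
        rw [pow_add]
        exact Submodule.mul_mem_mul hτ (hW hp1)
      exact TG9.pow_le_pow_of_one h1L (by omega) h1
    rw [Set.mem_iUnion₂]
    refine ⟨p, Finset.mem_product.2 hp, isDiv_chN hf hE, hf.ne, hsch, ?_,
      div_ne_zero (mul_ne_zero hτ0 h10) (pow_ne_zero _ h20)⟩
    rw [mem_cen (isDiv_chN hf hE).le]
    show E.valuation (τ * p.1 / p.2 ^ (e + 1 + m)) < 1
    have h20' : E.valuation p.2 ≠ 0 := (Valuation.ne_zero_iff _).2 h20
    rw [map_div₀, map_pow, div_lt_one₀ (pow_pos (zero_lt_iff.2 h20') _)]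
    have hle : ∀ x ∈ L, E.valuation x ≤ E.valuation p.2 := by
      intro x hx
      have h1 := (E.valuation_le_one_iff _).2 (hlE.div x hx)
      rw [map_div₀] at h1
      exact (div_le_one₀ (zero_lt_iff.2 h20')).1 h1
    rcases hT.2 p.1 hp1 with h0 | ⟨y, hy, hlt⟩
    · exact absurd h0 (mul_ne_zero hτ0 h10)
    · exact hlt.trans_le (TGBC50.val_pow_le hle hT.1 _ y hy)
  refine Set.Finite.subset (Set.Finite.biUnion (Finset.finite_toSet _) fun p hp => ?_) hsub
  by_cases hne : p.1 * p.2 = 0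
  · refine Set.Finite.subset Set.finite_empty ?_
    rintro E ⟨_, h, _⟩
    exact h hne
  by_cases hs : s p ∈ chN (W * L) (p.1 * p.2) ∧ s p ≠ 0
  · have hfg : (chN (W * L) (p.1 * p.2)).FG :=
      TGD.ncl_fg hK (TG.ch_fg hHfg) fun a => TG.Fin'.isAlgebraic hfin hne a
    have hft : Algebra.FiniteType k (chN (W * L) (p.1 * p.2)) :=
      (Subalgebra.fg_iff_finiteType _).1 hfg
    have hnoe : IsNoetherianRing (chN (W * L) (p.1 * p.2)) :=
      Algebra.FiniteType.isNoetherianRing k _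
    refine (finite_isDiv hnoe (s := ⟨s p, hs.1⟩) hs.2).subset ?_
    rintro E ⟨h1, _, _, h2, _⟩
    exact ⟨h1, h2⟩
  · refine Set.Finite.subset Set.finite_empty ?_
    rintro E ⟨_, _, h1, _, h2⟩
    exact hs ⟨h1, h2⟩

end Pool.Agent.TGBC
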